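import Pool.Agent.TH466.QG.Spread

/-!
# Algebraic elements over the field generated by finitely many elements
-/

set_option autoImplicit false

namespace Pool.Agent.Q103.RP

open Polynomial
open Pool.Agent.TH466.QG (exists_den)

/-- the polynomial with the coefficients of `Q` evaluated at `c` -/
noncomputable def evc {k E : Type} [Field k] [CommRing E] [Algebra k E] {n : ℕ}
    (Q : Polynomial (MvPolynomial (Fin n) k)) (c : Fin n → E) : E[X] :=
  Q.map (MvPolynomial.aeval c : MvPolynomial (Fin n) k →ₐ[k] E).toRingHom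

lemma evc_coeff {k E : Type} [Field k] [CommRing E] [Algebra k E] {n : ℕ}
    (Q : Polynomial (MvPolynomial (Fin n) k)) (c : Fin n → E) (m : ℕ) :
    (evc Q c).coeff m = MvPolynomial.aeval c (Q.coeff m) := by
  unfold evc
  rw [coeff_map]
  rfl

lemma evc_hom {k E E' : Type} [Field k] [CommRing E] [Algebra k E] [CommRing E'] [Algebra k E']
    {n : ℕ} (φ : E →ₐ[k] E') (Q : Polynomial (MvPolynomial (Fin n) k)) (c : Fin n → E) :
    (evc Q c).map φ.toRingHom = evc Q (fun i => φ (c i)) := by
  ext m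
  rw [coeff_map, evc_coeff, evc_coeff]
  exact MvPolynomial.comp_aeval_apply c φ (Q.coeff m)

lemma evc_eval {k E E' : Type} [Field k] [CommRing E] [Algebra k E] [CommRing E'] [Algebra k E']
    {n : ℕ} (φ : E →ₐ[k] E') (Q : Polynomial (MvPolynomial (Fin n) k)) (c : Fin n → E) (y : E) :
    (evc Q (fun i => φ (c i))).eval (φ y) = φ ((evc Q c).eval y) := by
  rw [← evc_hom]
  exact eval_map_apply φ.toRingHom y

/-- a polynomial relation of an algebraic element -/
theorem alg_poly {k K : Type} [Field k] [Field K] [Algebra k K] {n : ℕ} (c : Fin n → K) (y : K)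
    (h : IsAlgebraic (IntermediateField.adjoin k (Set.range c)) y) :
    ∃ Q : Polynomial (MvPolynomial (Fin n) k), (∃ m, (evc Q c).coeff m ≠ 0) ∧
      (evc Q c).eval y = 0 := by
  classical
  set F := IntermediateField.adjoin k (Set.range c) with hF
  let x : Fin n → F := fun i => ⟨c i, IntermediateField.subset_adjoin k _ ⟨i, rfl⟩⟩
  have hx : IntermediateField.adjoin k (Set.range x) = ⊤ := by
    apply IntermediateField.lift_injective
    rw [IntermediateField.lift_adjoin, IntermediateField.lift_top, ← Set.range_comp]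
    rfl
  obtain ⟨P, hP, hPy⟩ := h
  obtain ⟨H, hH, hG⟩ := exists_den hx (S := Set.range fun m : ℕ => P.coeff m) (by
    have h1 : (Set.range fun m : ℕ => P.coeff m) ⊆ insert 0 ((P.support.image P.coeff : Finset F) : Set F) := by
      rintro _ ⟨m, rfl⟩
      by_cases hm : P.coeff m = 0
      · exact Or.inl hm
      · refine Or.inr ?_
        rw [Finset.mem_coe]
        exact Finset.mem_image_of_mem _ (mem_support_iff.2 hm)
    exact ((Finset.finite_toSet _).insert 0).subset h1)
  have hG' : ∀ m, ∃ G : MvPolynomial (Fin n) k, P.coeff m * MvPolynomial.aeval x H =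
      MvPolynomial.aeval x G := fun m => hG _ ⟨m, rfl⟩
  choose G hGm using hG'
  set Q : Polynomial (MvPolynomial (Fin n) k) := ∑ m ∈ Finset.range (P.natDegree + 1),
    Polynomial.monomial m (G m) with hQ
  have hval : ∀ G : MvPolynomial (Fin n) k, MvPolynomial.aeval c G =
      algebraMap F K (MvPolynomial.aeval x G) := by
    intro G
    rw [← MvPolynomial.aeval_algebraMap_apply]
    rfl
  have hc : ∀ m, (evc Q c).coeff m = if m ≤ P.natDegree then
      algebraMap F K (P.coeff m * MvPolynomial.aeval x H) else 0 := by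
    intro m
    rw [evc_coeff, hQ, finsetSum_coeff]
    simp only [coeff_monomial]
    rw [Finset.sum_ite_eq' (Finset.range (P.natDegree + 1)) m]
    by_cases hm : m ≤ P.natDegree
    · rw [if_pos (Finset.mem_range.2 (by omega)), if_pos hm, hval, hGm]
    · rw [if_neg (by rw [Finset.mem_range]; omega), if_neg hm, map_zero]
  have heq : evc Q c = Polynomial.C (algebraMap F K (MvPolynomial.aeval x H)) *
      P.map (algebraMap F K) := by
    ext m
    rw [hc, coeff_C_mul, coeff_map]
    split_ifs with hm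
    · rw [map_mul, mul_comm]
    · rw [coeff_eq_zero_of_natDegree_lt (by omega), map_zero, mul_zero]
  have hH' : algebraMap F K (MvPolynomial.aeval x H) ≠ 0 := (_root_.map_ne_zero _).2 hH
  refine ⟨Q, ⟨P.natDegree, ?_⟩, ?_⟩
  · rw [heq, coeff_C_mul, coeff_map, coeff_natDegree]
    exact mul_ne_zero hH' ((_root_.map_ne_zero _).2 (leadingCoeff_ne_zero.2 hP))
  · rw [heq, eval_mul, eval_C, eval_map]
    have h2 : P.eval₂ (algebraMap F K) y = 0 := hPy
    rw [h2, mul_zero]

/-- the relation specializes -/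
theorem alg_spec' {k K E : Type} [Field k] [Field K] [Algebra k K] [Field E] [Algebra k E] {n : ℕ}
    {T : Subalgebra k K} (χ : T →ₐ[k] E) {c : Fin n → K} (hc : ∀ i, c i ∈ T) {y : K} (hy : y ∈ T)
    {Q : Polynomial (MvPolynomial (Fin n) k)} {m : ℕ} (hm : (evc Q c).coeff m ≠ 0)
    (hmT : ((evc Q c).coeff m)⁻¹ ∈ T) (h : (evc Q c).eval y = 0) :
    evc Q (fun i => χ ⟨c i, hc i⟩) ≠ 0 ∧
      (evc Q (fun i => χ ⟨c i, hc i⟩)).eval (χ ⟨y, hy⟩) = 0 := by
  have h1 : ∀ G : MvPolynomial (Fin n) k, MvPolynomial.aeval c G =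
      ((MvPolynomial.aeval (fun i => (⟨c i, hc i⟩ : T)) G : T) : K) := by
    intro G
    exact (MvPolynomial.comp_aeval_apply (fun i => (⟨c i, hc i⟩ : T)) T.val G).symm
  constructor
  · intro h0
    have h2 : (evc Q (fun i => (⟨c i, hc i⟩ : T))).coeff m * ⟨_, hmT⟩ = 1 := by
      apply Subtype.ext
      change ((evc Q (fun i => (⟨c i, hc i⟩ : T))).coeff m : K) * ((evc Q c).coeff m)⁻¹ = 1
      rw [evc_coeff, evc_coeff, ← h1]
      rw [evc_coeff] at hm
      exact mul_inv_cancel₀ hm
    have h3 := congrArg χ h2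
    rw [map_mul, map_one, evc_coeff, MvPolynomial.comp_aeval_apply] at h3
    have h4 : (evc Q (fun i => χ ⟨c i, hc i⟩)).coeff m = 0 := by rw [h0, coeff_zero]
    rw [evc_coeff] at h4
    rw [h4, zero_mul] at h3
    exact zero_ne_one h3
  · rw [evc_eval χ Q (fun i => (⟨c i, hc i⟩ : T)) ⟨y, hy⟩]
    have h2 : (evc Q (fun i => (⟨c i, hc i⟩ : T))).eval ⟨y, hy⟩ = 0 := by
      apply Subtype.ext
      have h3 := evc_eval T.val Q (fun i => (⟨c i, hc i⟩ : T)) (⟨y, hy⟩ : T)
      change (evc Q c).eval y = (((evc Q (fun i => (⟨c i, hc i⟩ : T))).eval (⟨y, hy⟩ : T) : T) : K)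
        at h3
      rw [← h3, h]
      rfl
    rw [h2, map_zero]

end Pool.Agent.Q103.RP
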