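import Pool.Agent.Q103.RP.Frm
import Pool.Agent.Q256.FX.GnrD

/-!
# Conjugate complex maps with marked preperiodic points
-/

set_option autoImplicit false

namespace Pool.Agent.Q103.RP

open Pool.Agent.Q103.RP.Few (act IsMap coeffs Conj pt IsPre iter_ne wd_zero_iff isPre_of
  wd_zero_of_pt pt_smul)
open Pool.Agent.H951R3.PB (wd ev rs dh)
open Pool.Agent.Q256.FX (CJC)

/-- points `W i`, pairwise different, which are permuted or mapped by `f` according to `τ` -/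
structure Cfg {E : Type} [Field E] (n : ℕ) (τ : Fin n → Fin n)
    (f : Fin 2 → MvPolynomial (Fin 2) E) (W : Fin n → Fin 2 → E) : Prop where
  ne : ∀ i, W i ≠ 0
  wd : ∀ i j, i ≠ j → wd (W i) (W j) ≠ 0
  map : ∀ i, ∃ c : E, c ≠ 0 ∧ ev f (W i) = c • W (τ i)

section

variable {E : Type} [Field E] {d n : ℕ} {τ : Fin n → Fin n} {f : Fin 2 → MvPolynomial (Fin 2) E}
  {W : Fin n → Fin 2 → E}

theorem Cfg.iter (h : Cfg n τ f W) (hf : ∀ i, (f i).IsHomogeneous d) (i : Fin n) (m : ℕ) :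
    ∃ c : E, c ≠ 0 ∧ (ev f)^[m] (W i) = c • W (τ^[m] i) := by
  induction m with
  | zero => exact ⟨1, one_ne_zero, by simp⟩
  | succ m ih =>
    obtain ⟨c, hc, h1⟩ := ih
    obtain ⟨c', hc', h2⟩ := h.map (τ^[m] i)
    refine ⟨c ^ d * c', mul_ne_zero (pow_ne_zero _ hc) hc', ?_⟩
    rw [Function.iterate_succ_apply', h1, Pool.Agent.H951R3.PB.ev_smul hf, h2, smul_smul,
      Function.iterate_succ_apply']

theorem Cfg.pre (h : Cfg n τ f W) (hf : ∀ i, (f i).IsHomogeneous d) (i : Fin n) :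
    ∃ a b : ℕ, a < b ∧ b ≤ n ∧
      Pool.Agent.H951R3.PB.wd ((ev f)^[a] (W i)) ((ev f)^[b] (W i)) = 0 := by
  have key : ∀ a b : ℕ, τ^[a] i = τ^[b] i →
      Pool.Agent.H951R3.PB.wd ((ev f)^[a] (W i)) ((ev f)^[b] (W i)) = 0 := by
    intro a b hab
    obtain ⟨c, hc, h1⟩ := h.iter hf i a
    obtain ⟨c', hc', h2⟩ := h.iter hf i b
    rw [h1, h2, hab]
    simp only [Pool.Agent.H951R3.PB.wd, Pi.smul_apply, smul_eq_mul]
    ring
  obtain ⟨a, b, hab, h1⟩ := Fintype.exists_ne_map_eq_of_card_lt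
    (fun m : Fin (n + 1) => τ^[(m : ℕ)] i) (by simp)
  have ha := a.2
  have hb := b.2
  rcases lt_or_gt_of_ne hab with h2 | h2
  · exact ⟨a, b, h2, by omega, key _ _ h1⟩
  · exact ⟨b, a, h2, by omega, key _ _ h1.symm⟩

theorem Cfg.many (h : Cfg n τ f W) (hd : 1 ≤ d) (hf : ∀ i, (f i).IsHomogeneous d)
    (h0 : rs f d ≠ 0) : (n : ℕ∞) ≤ {P | ∃ x : Fin 2 → E, x ≠ 0 ∧ P = pt x ∧ IsPre f x}.encard := by
  have hinj : Function.Injective fun i => pt (W i) := by
    intro i j hij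
    by_contra hne
    exact h.wd i j hne (wd_zero_of_pt hij)
  have h1 : Set.range (fun i => pt (W i)) ⊆
      {P | ∃ x : Fin 2 → E, x ≠ 0 ∧ P = pt x ∧ IsPre f x} := by
    rintro _ ⟨i, rfl⟩
    obtain ⟨a, b, hab, -, h2⟩ := h.pre hf i
    exact ⟨W i, h.ne i, rfl, isPre_of hd hf h0 (h.ne i) hab h2⟩
  refine le_trans (le_of_eq ?_) (Set.encard_le_encard h1)
  rw [← Set.image_univ, hinj.encard_image, Set.encard_univ]
  simp

end

section

variable {E : Type} [Field E]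

theorem wd_smul (a b : E) (x y : Fin 2 → E) : wd (a • x) (b • y) = a * b * wd x y := by
  simp only [wd, Pi.smul_apply, smul_eq_mul]
  ring

theorem wd_mulVec (A : Matrix (Fin 2) (Fin 2) E) (x y : Fin 2 → E) :
    wd (A.mulVec x) (A.mulVec y) = A.det * wd x y := by
  rw [Matrix.det_fin_two]
  simp only [wd, Matrix.mulVec, dotProduct, Fin.sum_univ_two]
  ring

theorem cr_smul {a b c e : E} (ha : a ≠ 0) (hb : b ≠ 0) (hc : c ≠ 0) (he : e ≠ 0)
    (u v w s : Fin 2 → E) : cr (a • u) (b • v) (c • w) (e • s) = cr u v w s := by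
  unfold cr
  rw [wd_smul, wd_smul, wd_smul, wd_smul]
  have h1 : a * c * wd u w * (b * e * wd v s) = (a * b * c * e) * (wd u w * wd v s) := by ring
  have h2 : b * c * wd v w * (a * e * wd u s) = (a * b * c * e) * (wd v w * wd u s) := by ring
  rw [h1, h2, mul_div_mul_left]
  exact mul_ne_zero (mul_ne_zero (mul_ne_zero ha hb) hc) he

theorem cr_mulVec {A : Matrix (Fin 2) (Fin 2) E} (hA : A.det ≠ 0) (u v w s : Fin 2 → E) :
    cr (A.mulVec u) (A.mulVec v) (A.mulVec w) (A.mulVec s) = cr u v w s := by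
  unfold cr
  rw [wd_mulVec, wd_mulVec, wd_mulVec, wd_mulVec]
  have h1 : A.det * wd u w * (A.det * wd v s) = (A.det * A.det) * (wd u w * wd v s) := by ring
  have h2 : A.det * wd v w * (A.det * wd u s) = (A.det * A.det) * (wd v w * wd u s) := by ring
  rw [h1, h2, mul_div_mul_left]
  exact mul_ne_zero hA hA

end

/-- **Conjugate maps.** The cross ratios of the marked points of the maps conjugate to `f₀` come from
a finite set of points whose number is bounded. -/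
theorem ref (d n : ℕ) (hd : 2 ≤ d) : ∃ B₀ : ℕ, ∀ f₀ : Fin 2 → MvPolynomial (Fin 2) ℂ,
    (∀ i, (f₀ i).IsHomogeneous d) → rs f₀ d ≠ 0 → ∃ S : Finset (Fin 2 → ℂ), S.card ≤ B₀ ∧
      ∀ (τ : Fin n → Fin n) (f : Fin 2 → MvPolynomial (Fin 2) ℂ) (W : Fin n → Fin 2 → ℂ),
        Cfg n τ f W → CJC f f₀ → ∃ s : Fin n → Fin 2 → ℂ, (∀ i, s i ∈ S) ∧
          ∀ i0 i1 i2 i, cr (W i0) (W i1) (W i2) (W i) = cr (s i0) (s i1) (s i2) (s i) := by
  classical
  obtain ⟨B₀, hB⟩ := Pool.Agent.Q14.FX.cntD d n hd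
  refine ⟨B₀, fun f₀ hf₀ h0 => ?_⟩
  let P : Finset (Fin 2 → ℂ) → Prop := fun S => (∀ v ∈ S, v ≠ 0) ∧
    (∀ v ∈ S, ∀ w ∈ S, v ≠ w → wd v w ≠ 0) ∧
    (∀ v ∈ S, ∃ i j : ℕ, i < j ∧ j ≤ n ∧ wd ((ev f₀)^[i] v) ((ev f₀)^[j] v) = 0)
  have hP : ∀ S, P S → S.card ≤ B₀ := fun S hS => hB ℂ f₀ hf₀ h0 S hS.1 hS.2.1 hS.2.2
  obtain ⟨m, hm⟩ : ∃ m, m = Nat.findGreatest (fun m => ∃ S, P S ∧ S.card = m) B₀ := ⟨_, rfl⟩
  obtain ⟨S, hS, hSm⟩ : ∃ S, P S ∧ S.card = m := by
    rw [hm]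
    exact Nat.findGreatest_spec (P := fun m => ∃ S, P S ∧ S.card = m) (Nat.zero_le B₀)
      ⟨∅, by simp [P], rfl⟩
  have hmax : ∀ S', P S' → S'.card ≤ m := by
    intro S' hS'
    rw [hm]
    exact Nat.le_findGreatest (hP S' hS') ⟨S', hS', rfl⟩
  have hmem : ∀ v : Fin 2 → ℂ, v ≠ 0 →
      (∃ i j : ℕ, i < j ∧ j ≤ n ∧ wd ((ev f₀)^[i] v) ((ev f₀)^[j] v) = 0) →
      ∃ s ∈ S, wd v s = 0 := by
    intro v hv hsh
    by_contra hcon
    push Not at hcon
    have hvS : v ∉ S := by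
      intro h1
      apply hcon v h1
      simp only [wd]
      ring
    have h2 : P (insert v S) := by
      refine ⟨?_, ?_, ?_⟩
      · intro w hw
        rcases Finset.mem_insert.1 hw with rfl | hw
        · exact hv
        · exact hS.1 w hw
      · intro w hw w' hw' hne
        rcases Finset.mem_insert.1 hw with hwv | hwS
        · rcases Finset.mem_insert.1 hw' with hwv' | hwS'
          · exact absurd (hwv.trans hwv'.symm) hne
          · rw [hwv]
            exact hcon w' hwS'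
        · rcases Finset.mem_insert.1 hw' with hwv' | hwS'
          · intro h3
            apply hcon w hwS
            rw [hwv'] at h3
            simp only [wd] at h3 ⊢
            linear_combination -h3
          · exact hS.2.1 w hwS w' hwS' hne
      · intro w hw
        rcases Finset.mem_insert.1 hw with rfl | hw
        · exact hsh
        · exact hS.2.2 w hw
    have h3 := hmax _ h2
    rw [Finset.card_insert_of_notMem hvS, hSm] at h3
    omega
  refine ⟨S, hP S hS, fun τ f W hW hcj => ?_⟩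
  obtain ⟨A, c, hA, hc, hcj⟩ := hcj
  have hu : IsUnit A.det := hA.isUnit
  have hinv : ∀ x : Fin 2 → ℂ, A.mulVec (A⁻¹.mulVec x) = x := by
    intro x
    rw [Matrix.mulVec_mulVec, Matrix.mul_nonsing_inv A hu, Matrix.one_mulVec]
  have hinv' : ∀ x : Fin 2 → ℂ, A⁻¹.mulVec (A.mulVec x) = x := by
    intro x
    rw [Matrix.mulVec_mulVec, Matrix.nonsing_inv_mul A hu, Matrix.one_mulVec]
  -- the points for `f₀`
  have hv : Cfg n τ f₀ (fun i => A⁻¹.mulVec (W i)) := by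
    refine ⟨?_, ?_, ?_⟩
    · intro i h1
      apply hW.ne i
      rw [← hinv (W i), h1, Matrix.mulVec_zero]
    · intro i j hij
      rw [wd_mulVec]
      exact mul_ne_zero (Matrix.isUnit_nonsing_inv_det A hu).ne_zero (hW.wd i j hij)
    · intro i
      obtain ⟨e, he, h1⟩ := hW.map i
      refine ⟨c⁻¹ * e, mul_ne_zero (inv_ne_zero hc) he, ?_⟩
      have h2 := hcj (A⁻¹.mulVec (W i))
      rw [hinv, h1] at h2
      have h3 : A.mulVec (ev f₀ (A⁻¹.mulVec (W i))) = (c⁻¹ * e) • W (τ i) := by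
        rw [mul_smul, h2, smul_smul, inv_mul_cancel₀ hc, one_smul]
      have h4 := congrArg (A⁻¹.mulVec) h3
      rw [hinv', Matrix.mulVec_smul] at h4
      exact h4
  have hs : ∀ i, ∃ s ∈ S, ∃ a : ℂ, a ≠ 0 ∧ s = a • A⁻¹.mulVec (W i) := by
    intro i
    obtain ⟨s, hsS, h1⟩ := hmem _ (hv.ne i) (hv.pre hf₀ i)
    obtain ⟨a, ha, h2⟩ := (wd_zero_iff (hv.ne i) (hS.1 s hsS)).1 h1
    exact ⟨s, hsS, a, ha, h2⟩
  choose s hsS a ha hsa using hs
  refine ⟨s, hsS, fun i0 i1 i2 i => ?_⟩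
  rw [hsa i0, hsa i1, hsa i2, hsa i, cr_smul (ha _) (ha _) (ha _) (ha _),
    cr_mulVec (Matrix.isUnit_nonsing_inv_det A hu).ne_zero]

end Pool.Agent.Q103.RP
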