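import Pool.Agent.Q103.EC.Mxv
import Pool.Agent.Q103.VR.Def
import Pool.Agent.H951R3.PB.Defs

/-!
# The map is defined over the field of the cross ratios of the preperiodic points
-/

set_option autoImplicit false

namespace Pool.Agent.Q103.RP

open Finset Polynomial
open Pool.Agent.Q41.SU
open Pool.Agent.Q41.GT
open Pool.Agent.Q103.EC
open Pool.Agent.W277.UH (ratP1 ratP1_some ratP1_some0 ratP1_none ratP1_none0 hc hev)
open Pool.Agent.Q68.GT (cp cp_conj cp_coprime cp_max mob_inv ptp ptp_none ptp_some exists_ptp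
  det_ne rat_ptp mob_ptp common img_ne)
open Pool.Agent.H951R3.PB (wd)

/-- the cross ratio -/
def cr {K : Type} [Field K] (u v w s : Fin 2 → K) : K := wd u w * wd v s / (wd v w * wd u s)

section

variable {K : Type} [Field K]

/-- the pair of a vector -/
def pr (V : Fin 2 → K) : K × K := (V 0, V 1)

lemma pr_ne {V : Fin 2 → K} (h : V ≠ 0) : (pr V).1 ≠ 0 ∨ (pr V).2 ≠ 0 := by
  by_contra hcon
  push Not at hcon
  apply h
  funext i
  fin_cases i
  · exact hcon.1
  · exact hcon.2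

lemma ptp_det {V W : K × K} (hV : V.1 ≠ 0 ∨ V.2 ≠ 0) (hW : W.1 ≠ 0 ∨ W.2 ≠ 0)
    (h : ptp V = ptp W) : V.1 * W.2 - V.2 * W.1 = 0 := by
  by_cases h1 : V.2 = 0
  · by_cases h2 : W.2 = 0
    · rw [h1, h2, mul_zero, zero_mul, sub_zero]
    · rw [ptp_none h1, ptp_some h2] at h
      cases h
  · by_cases h2 : W.2 = 0
    · rw [ptp_none h2, ptp_some h1] at h
      cases h
    · rw [ptp_some h1, ptp_some h2] at h
      have h3 := Option.some_inj.mp h
      rw [div_eq_div_iff h1 h2] at h3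
      linear_combination h3

lemma prop_of_ptp {V W : K × K} (hV : V.1 ≠ 0 ∨ V.2 ≠ 0) (hW : W.1 ≠ 0 ∨ W.2 ≠ 0)
    (h : ptp V = ptp W) : ∃ c : K, c ≠ 0 ∧ V.1 = c * W.1 ∧ V.2 = c * W.2 := by
  have h0 := ptp_det hV hW h
  by_cases h2 : W.2 = 0
  · have h1 : W.1 ≠ 0 := hW.resolve_right (fun hh => hh h2)
    have h3 : V.2 = 0 := by
      rw [h2, mul_zero, zero_sub, neg_eq_zero] at h0
      exact (mul_eq_zero.mp h0).resolve_right h1
    have h4 : V.1 ≠ 0 := hV.resolve_right (fun hh => hh h3)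
    refine ⟨V.1 / W.1, div_ne_zero h4 h1, (div_mul_cancel₀ _ h1).symm, ?_⟩
    rw [h2, h3, mul_zero]
  · have h3 : V.2 ≠ 0 := by
      intro h3
      rw [h3, zero_mul, sub_zero] at h0
      have h4 : V.1 ≠ 0 := hV.resolve_right (fun hh => hh h3)
      exact (mul_ne_zero h4 h2) h0
    refine ⟨V.2 / W.2, div_ne_zero h3 h2, ?_, (div_mul_cancel₀ _ h2).symm⟩
    field_simp
    linear_combination h0

end

/-- **The normal form.** -/
theorem kl {k K : Type} [Field k] [Field K] [Algebra k K] {d B : ℕ} (hd : 2 ≤ d)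
    (hB : 3 * d + 7 ≤ B) {p q : K[X]} (hcop : IsCoprime p q) (hdeg : max p.natDegree q.natDegree = d)
    (hmany : (B : ℕ∞) ≤ (prePer d p q).encard) :
    ∃ (n : ℕ) (V : Fin n → Fin 2 → K) (τ : Fin n → Fin n) (c : Fin n → K) (i0 i1 i2 : Fin n),
      B ≤ n ∧ (∀ i, V i ≠ 0) ∧ (∀ i j, i ≠ j → wd (V i) (V j) ≠ 0) ∧
      (∀ i, c i ≠ 0 ∧ hev d p (pr (V i)) = c i * V (τ i) 0 ∧
        hev d q (pr (V i)) = c i * V (τ i) 1) ∧ i0 ≠ i1 ∧ i0 ≠ i2 ∧ i1 ≠ i2 ∧
      Pool.Agent.Q103.VR.DefinedOver d p q (IntermediateField.adjoin k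
        (Set.range fun i => cr (V i0) (V i1) (V i2) (V i))) := by
  classical
  obtain ⟨T, hT, hTc⟩ := Set.exists_subset_encard_eq hmany
  have hTfin : T.Finite := Set.finite_of_encard_eq_coe hTc
  set f : Option K → Option K := ratP1 p q d with hf
  let S : Set (Option K) := ⋃ z ∈ T, Set.range fun m : ℕ => f^[m] z
  have hSfin : S.Finite := hTfin.biUnion fun z hz => hT hz
  have hTS : T ⊆ S := by
    intro z hz
    exact Set.mem_biUnion hz ⟨0, rfl⟩
  have hSf : ∀ z ∈ S, f z ∈ S := by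
    intro z hz
    simp only [S, Set.mem_iUnion, Set.mem_range] at hz ⊢
    obtain ⟨y, hy, m, rfl⟩ := hz
    exact ⟨y, hy, m + 1, Function.iterate_succ_apply' f m y⟩
  have hcard : B ≤ hSfin.toFinset.card := by
    have h3 : T.encard ≤ S.encard := Set.encard_le_encard hTS
    rw [hTc, hSfin.encard_eq_coe_toFinset_card] at h3
    exact_mod_cast h3
  obtain ⟨n, hn⟩ : ∃ n, n = hSfin.toFinset.card := ⟨_, rfl⟩
  let e : Fin n ≃ hSfin.toFinset := (Fin.castOrderIso hn).toEquiv.trans hSfin.toFinset.equivFin.symm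
  have hd1 : 1 ≤ d := by omega
  have hp : p.natDegree ≤ d := hdeg ▸ le_max_left _ _
  have hq : q.natDegree ≤ d := hdeg ▸ le_max_right _ _
  choose V' hV' hV'e using fun i : Fin n => exists_ptp ((e i : Option K))
  let V : Fin n → Fin 2 → K := fun i => ![(V' i).1, (V' i).2]
  have hpr : ∀ i, pr (V i) = V' i := fun i => rfl
  have hSfe : ∀ i, f (e i) ∈ hSfin.toFinset := fun i =>
    hSfin.mem_toFinset.2 (hSf _ (hSfin.mem_toFinset.1 (e i).2))
  let τ : Fin n → Fin n := fun i => e.symm ⟨f (e i), hSfe i⟩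
  have hτ : ∀ i, (e (τ i) : Option K) = f (e i) := fun i => by
    simp only [τ, Equiv.apply_symm_apply]
  have hVne : ∀ i, V i ≠ 0 := by
    intro i h0
    rcases hV' i with h1 | h1
    · exact h1 (congrFun h0 0)
    · exact h1 (congrFun h0 1)
  have hwd : ∀ i j, i ≠ j → wd (V i) (V j) ≠ 0 := by
    intro i j hij
    exact det_ne (hV' i) (hV' j) (by
      rw [hV'e, hV'e]
      intro h0
      exact hij (e.injective (Subtype.ext h0)))
  have hval : ∀ i, ∃ c : K, c ≠ 0 ∧ hev d p (V' i) = c * (V' (τ i)).1 ∧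
      hev d q (V' i) = c * (V' (τ i)).2 := by
    intro i
    have h1 : hev d p (V' i) ≠ 0 ∨ hev d q (V' i) ≠ 0 := by
      by_contra hh
      push Not at hh
      exact common hd1 hcop hdeg (hV' i) hh.1 hh.2
    refine prop_of_ptp (V := (hev d p (V' i), hev d q (V' i))) h1 (hV' (τ i)) ?_
    rw [← rat_ptp hp hq (hV' i), hV'e, hV'e, hτ]
  choose c hc0 hc1 hc2 using hval
  have hn3 : 3 * d + 7 ≤ n := by omega
  refine ⟨n, V, τ, c, ⟨0, by omega⟩, ⟨1, by omega⟩, ⟨2, by omega⟩, by omega, hVne, hwd,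
    fun i => ⟨hc0 i, hc1 i, hc2 i⟩, ?_, ?_, ?_, ?_⟩
  · intro h0
    simp [Fin.ext_iff] at h0
  · intro h0
    simp [Fin.ext_iff] at h0
  · intro h0
    simp [Fin.ext_iff] at h0
  obtain ⟨i0, hi0⟩ : ∃ i0 : Fin n, i0 = ⟨0, by omega⟩ := ⟨_, rfl⟩
  obtain ⟨i1, hi1⟩ : ∃ i1 : Fin n, i1 = ⟨1, by omega⟩ := ⟨_, rfl⟩
  obtain ⟨i2, hi2⟩ : ∃ i2 : Fin n, i2 = ⟨2, by omega⟩ := ⟨_, rfl⟩
  rw [← hi0, ← hi1, ← hi2]
  have h01 : i0 ≠ i1 := by
    rw [hi0, hi1]
    intro h0
    simp [Fin.ext_iff] at h0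
  have h02 : i0 ≠ i2 := by
    rw [hi0, hi2]
    intro h0
    simp [Fin.ext_iff] at h0
  have h12 : i1 ≠ i2 := by
    rw [hi1, hi2]
    intro h0
    simp [Fin.ext_iff] at h0
  -- the Moebius map
  obtain ⟨α, hα⟩ : ∃ α, α = wd (V i0) (V i2) := ⟨_, rfl⟩
  obtain ⟨β, hβ⟩ : ∃ β, β = wd (V i1) (V i2) := ⟨_, rfl⟩
  have hα0 : α ≠ 0 := by rw [hα]; exact hwd _ _ h02
  have hβ0 : β ≠ 0 := by rw [hβ]; exact hwd _ _ h12
  obtain ⟨a, ha⟩ : ∃ a, a = -(α * V i1 1) := ⟨_, rfl⟩
  obtain ⟨b, hb⟩ : ∃ b, b = α * V i1 0 := ⟨_, rfl⟩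
  obtain ⟨c', hc'⟩ : ∃ c', c' = -(β * V i0 1) := ⟨_, rfl⟩
  obtain ⟨e', he'⟩ : ∃ e', e' = β * V i0 0 := ⟨_, rfl⟩
  have hdet : a * e' - b * c' ≠ 0 := by
    have h5 : a * e' - b * c' = -(α * β * wd (V i0) (V i1)) := by
      rw [ha, hb, hc', he']
      unfold wd
      ring
    rw [h5]
    exact neg_ne_zero.mpr (mul_ne_zero (mul_ne_zero hα0 hβ0) (hwd _ _ h01))
  set p1 := cp d p q a b c' e' a b with hp1
  set q1 := cp d p q a b c' e' c' e' with hq1
  set M : Option K → Option K := ratP1 (C a * X + C b) (C c' * X + C e') 1 with hM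
  have hMinj : Function.Injective M := Function.LeftInverse.injective (mob_inv hdet)
  have hconj := cp_conj hd1 hcop hdeg hdet
  have hco1 : IsCoprime p1 q1 := cp_coprime hd1 hcop hdeg hdet
  have hmax1 : max p1.natDegree q1.natDegree = d := cp_max hd1 hcop hdeg hdet
  have hMe : ∀ i, M (e i) = ptp (α * wd (V i1) (V i), β * wd (V i0) (V i)) := by
    intro i
    rw [hM, ← hV'e i, mob_ptp _ _ _ _ (hV' i)]
    congr 1
    refine Prod.ext ?_ ?_
    · show a * V i 0 + b * V i 1 = α * wd (V i1) (V i)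
      rw [ha, hb]
      unfold wd
      ring
    · show c' * V i 0 + e' * V i 1 = β * wd (V i0) (V i)
      rw [hc', he']
      unfold wd
      ring
  set F := IntermediateField.adjoin k (Set.range fun i => cr (V i0) (V i1) (V i2) (V i)) with hF
  -- the finite points
  set P : Finset (Option K) := hSfin.toFinset.image M with hP
  have hPcard : P.card = n := by
    rw [hP, Finset.card_image_of_injective _ hMinj, ← hn]
  have hPe : ∀ y ∈ P, ∃ i, y = M (e i) := by
    intro y hy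
    obtain ⟨w, hw, rfl⟩ := Finset.mem_image.1 hy
    refine ⟨e.symm ⟨w, hw⟩, ?_⟩
    rw [Equiv.apply_symm_apply]
  have hPM : ∀ y ∈ P, ratP1 p1 q1 d y ∈ P := by
    intro y hy
    obtain ⟨w, hw, rfl⟩ := Finset.mem_image.1 hy
    rw [← hconj w]
    refine Finset.mem_image_of_mem _ ?_
    rw [Set.Finite.mem_toFinset] at hw ⊢
    exact hSf w hw
  have hnone : none ∈ P := by
    have h5 : M (e i0) = none := by
      rw [hMe, ptp_none]
      show β * wd (V i0) (V i0) = 0
      unfold wd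
      ring
    rw [← h5]
    exact Finset.mem_image_of_mem _ (e i0).2
  have hz : ∀ z : K, some z ∈ P → z ∈ F := by
    intro z hz
    obtain ⟨i, hi⟩ := hPe _ hz
    rw [hMe] at hi
    by_cases h5 : β * wd (V i0) (V i) = 0
    · rw [ptp_none h5] at hi
      cases hi
    · rw [ptp_some (V := (α * wd (V i1) (V i), β * wd (V i0) (V i))) h5] at hi
      have h6 := Option.some_inj.mp hi
      apply IntermediateField.subset_adjoin
      refine ⟨i, ?_⟩
      rw [h6]
      show wd (V i0) (V i2) * wd (V i1) (V i) / (wd (V i1) (V i2) * wd (V i0) (V i)) = _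
      rw [← hα, ← hβ]
  let T' : Finset K := (Finset.eraseNone P).filter fun z => q1.eval z ≠ 0
  have hTcard : 2 * d + 1 ≤ T'.card := by
    have h2 : (Finset.eraseNone P).card + 1 = P.card := by
      rw [Finset.card_eraseNone_of_mem hnone]
      have : 0 < P.card := Finset.card_pos.2 ⟨_, hnone⟩
      omega
    have hq0 : q1 ≠ 0 := by
      intro h0
      rw [h0] at hco1 hmax1
      have h1 : IsUnit p1 := isCoprime_zero_right.1 hco1
      have h2 := natDegree_eq_zero_of_isUnit h1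
      rw [h2, natDegree_zero] at hmax1
      omega
    have h3 : ((Finset.eraseNone P).filter fun z => ¬ q1.eval z ≠ 0).card ≤ d := by
      have h4 : ((Finset.eraseNone P).filter fun z => ¬ q1.eval z ≠ 0) ⊆ q1.roots.toFinset := by
        intro z hz
        rw [Finset.mem_filter] at hz
        rw [Multiset.mem_toFinset, mem_roots hq0, IsRoot.def]
        exact not_not.1 hz.2
      refine (Finset.card_le_card h4).trans ((Multiset.toFinset_card_le _).trans
        ((card_roots' q1).trans ?_))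
      rw [← hmax1]
      exact le_max_right _ _
    have h5 := Finset.card_filter_add_card_filter_not (s := Finset.eraseNone P)
      (fun z => q1.eval z ≠ 0)
    have h6 : T'.card = ((Finset.eraseNone P).filter fun z => q1.eval z ≠ 0).card := rfl
    omega
  have hsub := Pool.Agent.Q225.GT.rats_sub F d hd p1 q1 hmax1 hco1 T'
    (fun z => p1.eval z / q1.eval z) (by
    intro z hzT
    rw [Finset.mem_filter, Finset.mem_eraseNone] at hzT
    refine ⟨hz z hzT.1, ?_, (div_mul_cancel₀ _ hzT.2).symm⟩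
    have h2 := hPM _ hzT.1
    rw [ratP1_some p1 q1 d z hzT.2] at h2
    exact hz _ h2) hTcard
  -- the map is defined over `F`
  obtain ⟨g, hg, j, hgj⟩ : ∃ g : K[X], (g = p1 ∨ g = q1) ∧ ∃ j, g.coeff j ≠ 0 := by
    rcases max_choice p1.natDegree q1.natDegree with h7 | h7
    · rw [hmax1] at h7
      refine ⟨p1, Or.inl rfl, d, ?_⟩
      rw [h7, coeff_natDegree]
      intro h0
      rw [leadingCoeff_eq_zero.1 h0, natDegree_zero] at h7
      omega
    · rw [hmax1] at h7
      refine ⟨q1, Or.inr rfl, d, ?_⟩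
      rw [h7, coeff_natDegree]
      intro h0
      rw [leadingCoeff_eq_zero.1 h0, natDegree_zero] at h7
      omega
  set φ := algebraMap K (AlgebraicClosure K) with hφ
  set t : K := (g.coeff j)⁻¹ with ht
  have ht0 : t ≠ 0 := inv_ne_zero hgj
  have hφt : φ t ≠ 0 := (map_ne_zero φ).2 ht0
  have hφdet : φ a * φ e' - φ b * φ c' ≠ 0 := by
    rw [← map_mul, ← map_mul, ← map_sub]
    exact (map_ne_zero φ).2 hdet
  have hcoφ : IsCoprime (p.map φ) (q.map φ) := hcop.map (mapRingHom φ)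
  have hmaxφ : max (p.map φ).natDegree (q.map φ).natDegree = d := by
    rw [natDegree_map, natDegree_map, hdeg]
  have hunit : IsUnit (C (φ t)) := by
    rw [Polynomial.isUnit_C]
    exact hφt.isUnit
  refine ⟨C (φ t) * p1.map φ, C (φ t) * q1.map φ, φ a, φ b, φ c', φ e', hφdet, ?_, ?_, ?_, ?_⟩
  · rw [isCoprime_mul_unit_left hunit]
    exact hco1.map (mapRingHom φ)
  · rw [natDegree_C_mul hφt, natDegree_C_mul hφt, natDegree_map, natDegree_map, hmax1]
  · intro i
    have key : ∀ g' : K[X], (g' = p1 ∨ g' = q1) →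
        IsAlgebraic F ((C (φ t) * g'.map φ).coeff i) := by
      intro g' hg'
      have hmem : g'.coeff i / g.coeff j ∈ F := hsub ⟨g', g, hg', hg, i, j, rfl⟩
      have e1 : (C (φ t) * g'.map φ).coeff i = algebraMap F (AlgebraicClosure K)
            ⟨g'.coeff i / g.coeff j, hmem⟩ := by
        rw [coeff_C_mul, coeff_map, ← map_mul,
          IsScalarTower.algebraMap_apply F K (AlgebraicClosure K)]
        congr 1
        show (g.coeff j)⁻¹ * g'.coeff i = g'.coeff i / g.coeff j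
        rw [div_eq_mul_inv, mul_comm]
      rw [e1]
      exact isAlgebraic_algebraMap _
    exact ⟨key _ (Or.inl rfl), key _ (Or.inr rfl)⟩
  · intro y
    rw [ratP1_mulC d _ _ hφt, hp1, hq1, cp_map, cp_map]
    exact cp_conj hd1 hcoφ hmaxφ hφdet y

end Pool.Agent.Q103.RP
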