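import Pool.Agent.Q103.RP.Few
import Pool.Agent.Q103.RP.Kl

/-!
# Pairs of binary forms with given coefficients
-/

set_option autoImplicit false

namespace Pool.Agent.Q103.RP

open Pool.Agent.Q103.RP.Few (act IsMap coeffs Conj pt IsPre iter_ne)
open Pool.Agent.H951R3.PB (wd ev rs dh)
open Pool.Agent.Q256.FX (evR dhR rsR mp rsR_map rsR_eq evR_eq)
open Pool.Agent.W277.UH (hev)

/-- the pair of binary forms of degree `d` with the given coefficients -/
noncomputable def mk {A : Type} [CommRing A] (d : ℕ) (u : Fin 2 × Fin (d + 1) → A) :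
    Fin 2 → MvPolynomial (Fin 2) A := fun i =>
  ∑ j : Fin (d + 1), MvPolynomial.monomial (Finsupp.single 0 (j : ℕ) + Finsupp.single 1 (d - j))
    (u (i, j))

section

variable {A B : Type} [CommRing A] [CommRing B]

theorem mk_hom (d : ℕ) (u : Fin 2 × Fin (d + 1) → A) (i : Fin 2) :
    (mk d u i).IsHomogeneous d := by
  unfold mk
  apply MvPolynomial.IsHomogeneous.sum
  intro j _
  apply MvPolynomial.isHomogeneous_monomial
  have hj := j.2
  rw [map_add, Finsupp.degree_single, Finsupp.degree_single]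
  omega

theorem mk_map (φ : A →+* B) (d : ℕ) (u : Fin 2 × Fin (d + 1) → A) (i : Fin 2) :
    (mk d u i).map φ = mk d (fun s => φ (u s)) i := by
  unfold mk
  rw [map_sum]
  refine Finset.sum_congr rfl fun j _ => ?_
  rw [MvPolynomial.map_monomial]

theorem mk_smul (c : A) (d : ℕ) (u : Fin 2 × Fin (d + 1) → A) (i : Fin 2) :
    mk d (fun s => c * u s) i = MvPolynomial.C c * mk d u i := by
  unfold mk
  rw [Finset.mul_sum]
  refine Finset.sum_congr rfl fun j _ => ?_
  rw [MvPolynomial.C_mul_monomial]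

theorem mk_coeff (d : ℕ) (u : Fin 2 × Fin (d + 1) → A) (i : Fin 2) (j : Fin (d + 1)) :
    (mk d u i).coeff (Finsupp.single 0 (j : ℕ) + Finsupp.single 1 (d - j)) = u (i, j) := by
  classical
  unfold mk
  rw [MvPolynomial.coeff_sum, Finset.sum_eq_single j]
  · rw [MvPolynomial.coeff_monomial, if_pos rfl]
  · intro b _ hb
    rw [MvPolynomial.coeff_monomial, if_neg]
    intro h0
    apply hb
    have h1 := DFunLike.congr_fun h0 0
    simp only [Finsupp.add_apply, Finsupp.single_eq_same] at h1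
    have h2 : (Finsupp.single (1 : Fin 2) (d - b : ℕ)) 0 = 0 := by
      rw [Finsupp.single_apply, if_neg (by decide)]
    have h3 : (Finsupp.single (1 : Fin 2) (d - j : ℕ)) 0 = 0 := by
      rw [Finsupp.single_apply, if_neg (by decide)]
    rw [h2, h3] at h1
    exact Fin.ext (by omega)
  · intro h0
    exact absurd (Finset.mem_univ j) h0

theorem mk_eval (d : ℕ) (u : Fin 2 × Fin (d + 1) → A) (v : Fin 2 → A) (i : Fin 2) :
    MvPolynomial.eval v (mk d u i) = ∑ j : Fin (d + 1), u (i, j) * v 0 ^ (j : ℕ) * v 1 ^ (d - j) := by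
  unfold mk
  rw [map_sum]
  refine Finset.sum_congr rfl fun j _ => ?_
  rw [MvPolynomial.eval_monomial, Finsupp.prod_add_index' (by simp) (by
    intro a b c
    exact pow_add _ _ _), Finsupp.prod_single_index (by simp), Finsupp.prod_single_index (by simp),
    mul_assoc]

end

theorem coeffs_mk {K : Type} [Field K] (d : ℕ) (u : Fin 2 × Fin (d + 1) → K) :
    coeffs d (mk d u) = u := by
  funext s
  exact mk_coeff d u s.1 s.2

/-- the coefficients of the map `p / q` -/
noncomputable def cfv {K : Type} [Field K] (d : ℕ) (p q : Polynomial K) : Fin 2 × Fin (d + 1) → K :=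
  fun s => if s.1 = 0 then p.coeff s.2 else q.coeff s.2

theorem mk_hev {K : Type} [Field K] (d : ℕ) (p q : Polynomial K) (v : Fin 2 → K) :
    MvPolynomial.eval v (mk d (cfv d p q) 0) = hev d p (pr v) ∧
    MvPolynomial.eval v (mk d (cfv d p q) 1) = hev d q (pr v) := by
  rw [mk_eval, mk_eval]
  unfold hev cfv pr
  constructor
  · rw [Finset.sum_range]
    refine Finset.sum_congr rfl fun j _ => ?_
    simp
  · rw [Finset.sum_range]
    refine Finset.sum_congr rfl fun j _ => ?_
    simp

/-- a pair of forms with nonzero resultant has no common zero over the algebraic closure -/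
theorem isMap_of_rs {K : Type} [Field K] {d : ℕ} (hd : 1 ≤ d) {f : Fin 2 → MvPolynomial (Fin 2) K}
    (hf : ∀ i, (f i).IsHomogeneous d) (h0 : rs f d ≠ 0) : IsMap d f := by
  refine ⟨hf, fun x hx => ?_⟩
  by_contra hx0
  obtain ⟨f', hf'⟩ : ∃ f' : Fin 2 → MvPolynomial (Fin 2) (AlgebraicClosure K),
    f' = fun i => (f i).map (algebraMap K (AlgebraicClosure K)) := ⟨_, rfl⟩
  have h1 : rs f' d ≠ 0 := by
    have h2 := rsR_map (algebraMap K (AlgebraicClosure K)) f d
    rw [hf', ← rsR_eq]
    change rsR (mp (algebraMap K (AlgebraicClosure K)) f) d ≠ 0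
    rw [h2]
    exact (map_ne_zero _).2 h0
  have h3 := iter_ne hd (fun i => by rw [hf']; exact (hf i).map _) h1 hx0 1
  apply h3
  rw [Function.iterate_one]
  funext i
  show MvPolynomial.eval x (f' i) = 0
  rw [hf', MvPolynomial.eval_map]
  exact hx i

/-- the resultant and a homomorphism from a subring -/
theorem rs_hom {k K L : Type} [Field k] [Field K] [Algebra k K] [Field L] [Algebra k L]
    {T : Subalgebra k K} (φ : T →ₐ[k] L) {d : ℕ} (u : Fin 2 × Fin (d + 1) → T)
    (h0 : (rs (mk d fun s => (u s : K)) d)⁻¹ ∈ T) (h1 : rs (mk d fun s => (u s : K)) d ≠ 0) :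
    rs (mk d fun s => φ (u s)) d ≠ 0 := by
  have h2 : ((rsR (mk d u) d : T) : K) = rs (mk d fun s => (u s : K)) d := by
    obtain ⟨ψ, hψ⟩ : ∃ ψ : ↥T →+* K, ψ = T.val.toRingHom := ⟨_, rfl⟩
    have h3 := rsR_map ψ (mk d u) d
    rw [← rsR_eq]
    have h4 : mp ψ (mk d u) = mk d fun s => (u s : K) := by
      funext i
      rw [hψ]
      exact mk_map T.val.toRingHom d u i
    rw [h4, hψ] at h3
    exact h3.symm
  have h5 : rsR (mk d u) d * ⟨_, h0⟩ = 1 := by
    apply Subtype.ext
    change ((rsR (mk d u) d : T) : K) * (rs (mk d fun s => (u s : K)) d)⁻¹ = 1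
    rw [h2]
    exact mul_inv_cancel₀ h1
  have h6 := congrArg φ h5
  rw [map_mul, map_one] at h6
  have h7 : φ (rsR (mk d u) d) = rs (mk d fun s => φ (u s)) d := by
    obtain ⟨ψ, hψ⟩ : ∃ ψ : ↥T →+* L, ψ = φ.toRingHom := ⟨_, rfl⟩
    have h3 := rsR_map ψ (mk d u) d
    rw [← rsR_eq]
    have h4 : mp ψ (mk d u) = mk d fun s => φ (u s) := by
      funext i
      rw [hψ]
      exact mk_map φ.toRingHom d u i
    rw [h4, hψ] at h3
    exact h3.symm
  rw [h7] at h6
  exact left_ne_zero_of_mul_eq_one h6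

end Pool.Agent.Q103.RP
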