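import Pool.Agent.Q103.EC.Gen
import Pool.Agent.Q103.RP.Frm

/-!
# Examples over every field of characteristic zero
-/

set_option autoImplicit false

namespace Pool.Agent.Q103.RP

open FF Polynomial
open Pool.Agent.W602.GT
open Pool.Agent.Q41.SU
open Pool.Agent.Q41.GT
open Pool.Agent.W277.UH (ratP1)
open Pool.Agent.Q103.EC (ManyPrep manyPrep_of_mem)

theorem rat_pow {E : Type} [Field E] (d : ℕ) (z : E) :
    ratP1 (X ^ d : E[X]) 1 d (some z) = some (z ^ d) := by
  simp [ratP1]

theorem iter_pow {E : Type} [Field E] (d : ℕ) (z : E) (m : ℕ) :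
    (ratP1 (X ^ d : E[X]) 1 d)^[m] (some z) = some (z ^ (d ^ m)) := by
  induction m with
  | zero => simp
  | succ m ih =>
    rw [Function.iterate_succ_apply', ih, rat_pow, ← pow_mul, pow_succ]

/-- the moduli spaces are not empty over algebraically closed fields -/
theorem nem {E : Type} [Field E] [CharZero E] [IsAlgClosed E] (d n : ℕ) (hd : 2 ≤ d)
    (hn : 3 ≤ n) : (V d n E).Nonempty := by
  have hdn : 2 < d ^ n := by
    have h1 : 2 ^ 3 ≤ d ^ n := (Nat.pow_le_pow_left hd 3).trans (Nat.pow_le_pow_right (by omega) hn)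
    omega
  have hN : d ^ n - 1 ≠ 0 := by omega
  obtain ⟨z, hz⟩ : ∃ z : E, IsPrimitiveRoot z (d ^ n - 1) := by
    have : NeZero ((d ^ n - 1 : ℕ) : E) := ⟨by exact_mod_cast hN⟩
    have hdeg : (cyclotomic (d ^ n - 1) E).degree ≠ 0 := by
      rw [degree_cyclotomic]
      have h1 : 0 < Nat.totient (d ^ n - 1) := Nat.totient_pos.2 (by omega)
      exact_mod_cast h1.ne'
    obtain ⟨z, hz⟩ := IsAlgClosed.exists_root _ hdeg
    exact ⟨z, isRoot_cyclotomic_iff.1 hz⟩
  have hz0 : z ≠ 0 := hz.ne_zero hN
  have hiff : ∀ m : ℕ, Function.IsPeriodicPt (ratP1 (X ^ d : E[X]) 1 d) m (some z) ↔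
      (d ^ n - 1) ∣ (d ^ m - 1) := by
    intro m
    unfold Function.IsPeriodicPt Function.IsFixedPt
    rw [iter_pow, Option.some_inj]
    have h1 : 1 ≤ d ^ m := Nat.one_le_pow _ _ (by omega)
    have h2 : z ^ (d ^ m) = z ^ (d ^ m - 1) * z := by
      rw [← pow_succ]
      congr 1
      omega
    rw [h2]
    rw [← hz.pow_eq_one_iff_dvd]
    constructor
    · intro h3
      have : z ^ (d ^ m - 1) * z = 1 * z := by rw [h3, one_mul]
      exact mul_right_cancel₀ hz0 this
    · intro h3
      rw [h3, one_mul]
  have hmin : Function.minimalPeriod (ratP1 (X ^ d : E[X]) 1 d) (some z) = n := by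
    have hn1 : Function.IsPeriodicPt (ratP1 (X ^ d : E[X]) 1 d) n (some z) := (hiff n).2 dvd_rfl
    apply le_antisymm
    · exact hn1.minimalPeriod_le (by omega)
    · by_contra hlt
      push Not at hlt
      set m := Function.minimalPeriod (ratP1 (X ^ d : E[X]) 1 d) (some z) with hm
      have hm0 : 0 < m := hn1.minimalPeriod_pos (by omega)
      have h3 := (hiff m).1 (Function.isPeriodicPt_minimalPeriod _ _)
      have h4 : d ^ m < d ^ n := Nat.pow_lt_pow_right (by omega) hlt
      have h5 : 1 < d ^ m := Nat.one_lt_pow (by omega) (by omega)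
      have h6 := Nat.le_of_dvd (by omega) h3
      omega
  have : Infinite E := inferInstance
  obtain ⟨x, hx, -⟩ := b_nfm E d n hd hn (X ^ d) 1 (some z) isCoprime_one_right
    (by rw [natDegree_X_pow, natDegree_one]; omega) hmin
  exact ⟨x, hx.1⟩

/-- the image of a point under an injective homomorphism, and back -/
theorem V_of_map {E E' : Type} [Field E] [Field E'] (φ : E →+* E') {d n : ℕ}
    {y : Sg d → E} (h : (fun i => φ (y i)) ∈ V d n E') : y ∈ V d n E := by
  have h1 : num d (fun i => φ (y i)) = (num d y).map φ := by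
    unfold num
    rw [Polynomial.map_sum]
    refine Finset.sum_congr rfl fun i _ => ?_
    rw [Polynomial.map_mul, Polynomial.map_pow, map_C, map_X]
  have h2 : den d (fun i => φ (y i)) = (den d y).map φ := by
    unfold den
    rw [h1, Polynomial.map_add, Polynomial.map_add, Polynomial.map_pow, map_X, Polynomial.map_sum,
      map_C, coeff_map]
    congr 2
    refine Finset.sum_congr rfl fun i _ => ?_
    rw [Polynomial.map_mul, Polynomial.map_pow, map_C, map_X]
  obtain ⟨h3, h4⟩ := h
  rw [h1, h2] at h3 h4
  refine ⟨(Polynomial.isCoprime_map φ).1 h3, ?_⟩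
  rw [← h4]
  -- the two maps are semiconjugate
  have hs : Function.Semiconj (Option.map φ) (ratP1 (num d y) (den d y) d)
      (ratP1 ((num d y).map φ) ((den d y).map φ) d) := by
    intro z
    exact Pool.Agent.Q103.EC.ratP1_map φ d (num d y) (den d y) z
  apply Function.minimalPeriod_eq_minimalPeriod_iff.mpr
  intro m
  have h5 := (hs.iterate_right m).eq none
  unfold Function.IsPeriodicPt Function.IsFixedPt
  change Option.map φ _ = (ratP1 ((num d y).map φ) ((den d y).map φ) d)^[m] none at h5
  rw [← h5]
  constructor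
  · intro h6
    rw [h6]
    rfl
  · intro h6
    exact Option.map_injective φ.injective h6

/-- the coefficients of the maps in normal form as coordinates -/
def crd {A : Type} [One A] (d : ℕ) {M : ℕ} (e : Sg d ≃ Fin M) (y : Sg d → A) : Fin (M + 1) → A :=
  Fin.cons 1 (fun i => y (e.symm i))

/-- **Examples.** For every field `k` of characteristic zero, all `d ≥ 2` and `n ≥ 3` there are
varieties over `k` of dimension `2 d - 2` with a rational map of degree `d` with at least `n` preperiodic
points and generically finite moduli map, whose coefficients are homogeneous coordinates. -/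
theorem exists_over (k : Type) [Field k] [CharZero k] (d n : ℕ) (hd : 2 ≤ d) (hn : 3 ≤ n) :
    ∃ (K : Type) (_ : Field K) (_ : Algebra k K) (p q : K[X]), ManyPrep k d n p q ∧
      Algebra.trdeg k K = (2 * d - 2 : ℕ) ∧
      ∃ (M : ℕ) (x : Fin (M + 1) → K), x ≠ 0 ∧ coords k x = ⊤ ∧
      ∃ F : Fin 2 × Fin (d + 1) → MvPolynomial (Fin (M + 1)) k, (∀ s, (F s).IsHomogeneous 1) ∧
        ∀ s, cfv d p q s = val x (F s) := by
  classical
  have hne : (V d n (AlgebraicClosure k)).Nonempty := nem d n hd hn
  have hI : MvPolynomial.vanishingIdeal (AlgebraicClosure k) (V d n (AlgebraicClosure k)) ≠ ⊤ := by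
    intro h
    obtain ⟨y, hy⟩ := hne
    have h1 : (1 : MvPolynomial (Sg d) (AlgebraicClosure k)) ∈
        MvPolynomial.vanishingIdeal (AlgebraicClosure k) (V d n (AlgebraicClosure k)) := by
      rw [h]
      exact Submodule.mem_top
    have h2 := (MvPolynomial.mem_vanishingIdeal_iff.1 h1) y hy
    simp at h2
  obtain ⟨P, hP⟩ := Ideal.nonempty_minimalPrimes hI
  have : P.IsPrime := hP.1.1
  obtain ⟨h1, h2⟩ := b_cmp (AlgebraicClosure k) d n hd (by omega) P hP
  have hF := Pool.Agent.Q176.GT.R3.fun_ (AlgebraicClosure k) (Sg d) _ P h1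
  have hx := b_gnp (AlgebraicClosure k) _ d n hd (by omega) _ Set.inter_subset_left _ hF
  obtain ⟨y, hy⟩ : ∃ y : Sg d → FractionRing (MvPolynomial (Sg d) (AlgebraicClosure k) ⧸ P),
    y = fun i => algebraMap (MvPolynomial (Sg d) (AlgebraicClosure k) ⧸ P) _
      (Ideal.Quotient.mk P (MvPolynomial.X i)) := ⟨_, rfl⟩
  rw [← hy] at hx hF
  obtain ⟨K, _, _, y, hx, hgen, h2⟩ : ∃ (K : Type) (_ : Field K) (_ : Algebra (AlgebraicClosure k) K)
      (y : Sg d → K), y ∈ V d n K ∧ IntermediateField.adjoin (AlgebraicClosure k) (Set.range y) = ⊤ ∧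
      Algebra.trdeg (AlgebraicClosure k) K = (2 * d - 2 : ℕ) :=
    ⟨_, inferInstance, inferInstance, y, hx, hF.2, h2⟩
  let _ : Algebra k K := ((algebraMap (AlgebraicClosure k) K).comp
    (algebraMap k (AlgebraicClosure k))).toAlgebra
  have : IsScalarTower k (AlgebraicClosure k) K := IsScalarTower.of_algebraMap_eq fun _ => rfl
  obtain ⟨K0, hK0⟩ : ∃ K0, K0 = IntermediateField.adjoin k (Set.range y) := ⟨_, rfl⟩
  have hyK : ∀ i, y i ∈ K0 := fun i => by
    rw [hK0]
    exact IntermediateField.subset_adjoin k _ ⟨i, rfl⟩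
  let y0 : Sg d → K0 := fun i => ⟨y i, hyK i⟩
  have hgen0 : IntermediateField.adjoin k (Set.range y0) = ⊤ := by
    apply IntermediateField.lift_injective
    rw [IntermediateField.lift_adjoin, IntermediateField.lift_top, ← Set.range_comp]
    exact hK0.symm
  have hV0 : y0 ∈ V d n K0 := V_of_map (algebraMap K0 K) hx
  -- `K` is algebraic over `K0`
  have halg : Algebra.IsAlgebraic K0 K := by
    have h3 : ∀ c : AlgebraicClosure k, IsAlgebraic K0 (algebraMap (AlgebraicClosure k) K c) := by
      intro c
      have h4 : IsAlgebraic k c := Algebra.IsAlgebraic.isAlgebraic c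
      have h5 : IsAlgebraic k (algebraMap (AlgebraicClosure k) K c) := h4.algebraMap
      exact h5.extendScalars (algebraMap k K0).injective
    have h6 : (algebraicClosure K0 K).toSubfield = ⊤ := by
      rw [eq_top_iff]
      intro z _
      have hz : z ∈ IntermediateField.adjoin (AlgebraicClosure k) (Set.range y) := by
        rw [hgen]
        exact IntermediateField.mem_top
      rw [← IntermediateField.mem_toSubfield, IntermediateField.adjoin_toSubfield] at hz
      have h7 : Subfield.closure (Set.range (algebraMap (AlgebraicClosure k) K) ∪ Set.range y) ≤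
          (algebraicClosure K0 K).toSubfield := by
        rw [Subfield.closure_le]
        rintro w (⟨c, rfl⟩ | ⟨i, rfl⟩)
        · exact mem_algebraicClosure_iff.2 (h3 c)
        · exact mem_algebraicClosure_iff.2 (isAlgebraic_algebraMap (y0 i))
      exact h7 hz
    refine ⟨fun z => ?_⟩
    have h8 : z ∈ (algebraicClosure K0 K).toSubfield := by
      rw [h6]
      trivial
    exact mem_algebraicClosure_iff.1 h8
  have htr : Algebra.trdeg k K0 = (2 * d - 2 : ℕ) := by
    have h3 : Algebra.trdeg k K0 + Algebra.trdeg K0 K = Algebra.trdeg k K :=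
      _root_.trdeg_add_eq k K0
    have h4 : Algebra.trdeg k (AlgebraicClosure k) + Algebra.trdeg (AlgebraicClosure k) K =
      Algebra.trdeg k K := _root_.trdeg_add_eq k (AlgebraicClosure k)
    rw [trdeg_eq_zero (R := K0) (A := K), add_zero] at h3
    rw [trdeg_eq_zero (R := k) (A := AlgebraicClosure k), zero_add, h2] at h4
    rw [h3, ← h4]
  have : CharZero K0 := charZero_of_injective_algebraMap (algebraMap k K0).injective
  obtain ⟨M, ⟨e⟩⟩ := Finite.exists_equiv_fin (Sg d)
  refine ⟨K0, inferInstance, inferInstance, num d y0, den d y0,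
    manyPrep_of_mem hd hn hV0 hgen0, htr, M, crd d e y0, ?_, ?_, ?_⟩
  · intro h
    have h0 : crd d e y0 0 = 0 := by rw [h]; rfl
    simp [crd] at h0
  · rw [eq_top_iff, ← hgen0]
    unfold coords
    apply IntermediateField.adjoin.mono
    rintro _ ⟨s, rfl⟩
    exact ⟨(e s).succ, 0, by simp [crd], by simp [crd]⟩
  · have hv : ∀ s, val (crd d e y0) (MvPolynomial.X ((e s).succ) : MvPolynomial (Fin (M + 1)) k) =
        y0 s := by
      intro s
      unfold val
      rw [MvPolynomial.aeval_X]
      simp [crd]
    have hv0 : val (crd d e y0) (MvPolynomial.X 0 : MvPolynomial (Fin (M + 1)) k) = 1 := by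
      unfold val
      rw [MvPolynomial.aeval_X]
      simp [crd]
    have hvz : val (crd d e y0) (0 : MvPolynomial (Fin (M + 1)) k) = 0 := by
      unfold val
      rw [map_zero]
    have key : ∀ s : Fin 2 × Fin (d + 1), ∃ G : MvPolynomial (Fin (M + 1)) k, G.IsHomogeneous 1 ∧
        cfv d (num d y0) (den d y0) s = val (crd d e y0) G := by
      rintro ⟨i, j⟩
      have hnum : ∀ j : ℕ, (num d y0).coeff j = if h : j < d then y0 (Sum.inl ⟨j, h⟩) else 0 := by
        intro j
        unfold num
        rw [finsetSum_coeff]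
        simp only [coeff_C_mul, coeff_X_pow, mul_ite, mul_one, mul_zero]
        split_ifs with h
        · rw [Finset.sum_eq_single ⟨j, h⟩]
          · simp
          · intro b _ hb
            rw [if_neg]
            intro h0
            exact hb (Fin.ext h0.symm)
          · intro h0
            exact absurd (Finset.mem_univ _) h0
        · refine Finset.sum_eq_zero fun b _ => ?_
          rw [if_neg]
          intro h0
          exact h (h0 ▸ b.2)
      have hnumG : ∀ j : ℕ, ∃ G : MvPolynomial (Fin (M + 1)) k, G.IsHomogeneous 1 ∧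
          (num d y0).coeff j = val (crd d e y0) G := by
        intro j
        rw [hnum]
        split_ifs with h
        · exact ⟨_, MvPolynomial.isHomogeneous_X _ _, (hv _).symm⟩
        · exact ⟨0, MvPolynomial.isHomogeneous_zero _ _ _, hvz.symm⟩
      have hadd : ∀ a b : K0, (∃ G : MvPolynomial (Fin (M + 1)) k, G.IsHomogeneous 1 ∧
          a = val (crd d e y0) G) → (∃ G : MvPolynomial (Fin (M + 1)) k, G.IsHomogeneous 1 ∧
          b = val (crd d e y0) G) → ∃ G : MvPolynomial (Fin (M + 1)) k, G.IsHomogeneous 1 ∧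
          a + b = val (crd d e y0) G := by
        rintro a b ⟨G, hG, h⟩ ⟨G', hG', h'⟩
        refine ⟨G + G', hG.add hG', ?_⟩
        rw [h, h']
        unfold val
        rw [map_add]
      unfold cfv
      by_cases hi : i = 0
      · subst hi
        simp only [if_true]
        exact hnumG _
      · simp only [hi, if_false]
        unfold den
        rw [coeff_add, coeff_add]
        refine hadd _ _ (hadd _ _ ?_ ?_) ?_
        · rw [coeff_X_pow]
          split_ifs
          · exact ⟨_, MvPolynomial.isHomogeneous_X _ _, hv0.symm⟩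
          · exact ⟨0, MvPolynomial.isHomogeneous_zero _ _ _, hvz.symm⟩
        · rw [finsetSum_coeff]
          refine Finset.sum_induction _ (fun a => ∃ G : MvPolynomial (Fin (M + 1)) k,
            G.IsHomogeneous 1 ∧ a = val (crd d e y0) G) hadd
            ⟨0, MvPolynomial.isHomogeneous_zero _ _ _, hvz.symm⟩ ?_
          intro b _
          rw [coeff_C_mul, coeff_X_pow]
          split_ifs
          · rw [mul_one]
            exact ⟨_, MvPolynomial.isHomogeneous_X _ _, (hv _).symm⟩
          · rw [mul_zero]
            exact ⟨0, MvPolynomial.isHomogeneous_zero _ _ _, hvz.symm⟩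
        · rw [coeff_C]
          split_ifs
          · exact hnumG 0
          · exact ⟨0, MvPolynomial.isHomogeneous_zero _ _ _, hvz.symm⟩
    choose F hF hF' using key
    exact ⟨F, hF, hF'⟩

end Pool.Agent.Q103.RP
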