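import Pool.Agent.Q256.FX.Det
import Pool.Agent.Q256.FX.DatD
import Pool.Agent.Q175.FX.Hen
import Pool.Agent.Q175.FX.Alg
import Pool.Agent.Q175.FX.Inter
import Pool.Agent.Q175.FX.Conv
import Pool.Agent.Q175.FX.Bakern
import Pool.Agent.Q251.FX.Cls
import Pool.Agent.Q20.FX.Conj
import Pool.Agent.Q14.FX.Cntd
import Pool.Agent.Q210.FX.Main
import Pool.Agent.Q256.FX.Absd
import Pool.Agent.Q210.FX.Gen
import Pool.Agent.Q210.FX.Htd
import Pool.Agent.Q6.FX.Coord
import Pool.Agent.Q190.FX.Baker
import Pool.Agent.H951R3.PB.G5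
import Pool.Agent.H951R3.PB.F5
import Pool.Agent.TH450.PC.F4

/-!
# MP_90787a_nt: few exceptional conjugacy classes in the Morton-Silverman conjecture over all number
# fields of bounded degree

For all `d ≥ 2`, `D ≥ 1`, `ε > 0` there are `N`, `C` such that for every `X ≥ 1` at most `C X ^ ε`
conjugacy classes under `PGL₂(ℂ)` contain all endomorphisms `f` of the projective line of degree `d`
over all number fields `K` of degree at most `D`, of absolute height at most `X`, which have more
than `N` preperiodic points in `ℙ¹(K)` or a point of `ℙ¹(K)` which is not preperiodic and whose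
absolute canonical height is less than `log X / N`.

Proof. (1) Suppose not. Then there are `X_N → ∞` and sets `𝒢_N` of pairwise not conjugate maps, with
`#𝒢_N ^ a > N X_N`, each with a point over `K` whose first `N` iterates are distinct and which has
canonical height at most `log X_N / N`, so that the first iterates have height at most `X_N ^ A`,
`A` depending only on `d` and `D`. A generator `θ` of `K` whose minimal polynomial has height at most
`X_N ^ A` is chosen such that the coordinates with respect to the powers of `θ` of the coefficients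
and of the points have height at most `X_N ^ A` as well (`Coord`, `Gen`). So one has rational vectors.
(2) In an ultraproduct take a generic point `s*` of these families of vectors whose ideal over the
field `k` of nonstandard rational numbers of polynomially bounded height (with respect to `X_N`) is
as large as possible. Let `L = k(s*)`. The determinant method modulo a power of one prime `q`, in the
residue classes where things are unramified, shows: every germ of a function in `L` whose values have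
height at most `X_N ^ A` has degree at most `b(A)` over a transcendence basis of `L / k` (otherwise
its values would lie on a hypersurface of degree `b(A)` for a large part of the points, and the ideal
would not be maximal).
(3) So the generic map `f*` over `L(θ)` has an infinite orbit of points of bounded height. Baker's
theorem over function fields (at the points given by the conjugates of `θ` at the same time) shows
that the cross ratios of the points of this orbit are algebraic over `k`, thus germs of functions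
of `N`, and then `f*` is conjugate to a map over the constants; so two different members of `𝒢_N`
are conjugate over `ℂ`, a contradiction.
-/

set_option autoImplicit false

open Filter Topology

namespace Pool.Agent.Q103.RP.Few

/-- The map `x ↦ (f 0 (x), f 1 (x))` of the plane given by a pair of binary forms. -/
noncomputable def act {K : Type} [Field K] (f : Fin 2 → MvPolynomial (Fin 2) K)
    (x : Fin 2 → K) : Fin 2 → K := fun i => MvPolynomial.eval x (f i)

/-- `[f 0 : f 1]` is an endomorphism of the projective line of degree `d`: two forms of degree `d`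
without common zero over the algebraic closure. -/
def IsMap {K : Type} [Field K] (d : ℕ) (f : Fin 2 → MvPolynomial (Fin 2) K) : Prop :=
  (∀ i, (f i).IsHomogeneous d) ∧
    ∀ x : Fin 2 → AlgebraicClosure K, (∀ i, MvPolynomial.aeval x (f i) = 0) → x = 0

/-- The vector of the coefficients of `f`, as a rational function of degree `d`. -/
noncomputable def coeffs {K : Type} [Field K] (d : ℕ) (f : Fin 2 → MvPolynomial (Fin 2) K) :
    Fin 2 × Fin (d + 1) → K :=
  fun p => (f p.1).coeff (Finsupp.single 0 (p.2 : ℕ) + Finsupp.single 1 (d - p.2))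

/-- `[f 0 : f 1]` and `[g 0 : g 1]` are conjugate by an element of `PGL₂(ℂ)`. -/
def Conj (f g : Fin 2 → MvPolynomial (Fin 2) ℂ) : Prop :=
  ∃ (A : Matrix (Fin 2) (Fin 2) ℂ) (c : ℂ), A.det ≠ 0 ∧ c ≠ 0 ∧
    ∀ x : Fin 2 → ℂ, act f (A.mulVec x) = c • A.mulVec (act g x)

/-- The point of the projective line with homogeneous coordinates `x`. -/
def pt {K : Type} [Field K] (x : Fin 2 → K) : Submodule K (Fin 2 → K) := Submodule.span K {x}

/-- The point with homogeneous coordinates `x` is preperiodic for `[f 0 : f 1]`: the set of its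
iterates is finite. -/
def IsPre {K : Type} [Field K] (f : Fin 2 → MvPolynomial (Fin 2) K) (x : Fin 2 → K) : Prop :=
  (Set.range fun n : ℕ => pt ((act f)^[n] x)).Finite

open Pool.Agent.H951R3.PB (wd ev rs dh)
open Pool.Agent.Q256.FX

theorem absD' : S_absD :=
  Pool.Agent.Q256.FX.AD.absD
    (abs_of_main (Pool.Agent.Q210.FX.main (Pool.Agent.Q251.FX.cls Pool.Agent.Q256.FX.DT.det Pool.Agent.Q175.FX.hen)
      Pool.Agent.Q175.FX.lg))

theorem bakern' : S_bakern :=
  Pool.Agent.Q175.FX.bakern Pool.Agent.Q190.FX.baker Pool.Agent.Q175.FX.inter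
    Pool.Agent.Q175.FX.conv

section K

variable {K : Type} [Field K]

theorem wd_zero_iff {x y : Fin 2 → K} (hx : x ≠ 0) (hy : y ≠ 0) :
    wd x y = 0 ↔ ∃ c : K, c ≠ 0 ∧ y = c • x := by
  constructor
  · intro h
    simp only [wd] at h
    obtain ⟨i, hi⟩ : ∃ i, x i ≠ 0 := by
      by_contra hcon
      push Not at hcon
      exact hx (funext hcon)
    have hy' : y = (y i / x i) • x := by
      funext j
      simp only [Pi.smul_apply, smul_eq_mul]
      fin_cases i <;> fin_cases j <;> simp at hi ⊢ <;> field_simp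
      · linear_combination h
      · linear_combination -h
    refine ⟨y i / x i, ?_, hy'⟩
    intro h0
    rw [h0, zero_smul] at hy'
    exact hy hy'
  · rintro ⟨c, -, rfl⟩
    simp only [wd, Pi.smul_apply, smul_eq_mul]
    ring

theorem iter_ne {d : ℕ} (hd : 1 ≤ d) {F : Fin 2 → MvPolynomial (Fin 2) K}
    (hF : ∀ i, (F i).IsHomogeneous d) (h0 : rs F d ≠ 0) {x : Fin 2 → K} (hx : x ≠ 0) (n : ℕ) :
    (ev F)^[n] x ≠ 0 := by
  classical
  have w₀ : AbsoluteValue (AlgebraicClosure K) ℝ := AbsoluteValue.trivial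
  exact Pool.Agent.H951R3.PB.F4_iter_ne hd hF h0 w₀ hx n

theorem pt_smul (c : K) (hc : c ≠ 0) (x : Fin 2 → K) : pt (c • x) = pt x :=
  Submodule.span_singleton_smul_eq (IsUnit.mk0 c hc) x

theorem wd_zero_of_pt {x y : Fin 2 → K} (h : pt x = pt y) : wd x y = 0 := by
  have h1 : y ∈ pt x := by
    rw [h]
    exact Submodule.mem_span_singleton_self y
  obtain ⟨c, rfl⟩ := Submodule.mem_span_singleton.1 h1
  simp only [wd, Pi.smul_apply, smul_eq_mul]
  ring

theorem pt_of_wd {x y : Fin 2 → K} (hx : x ≠ 0) (hy : y ≠ 0) (h : wd x y = 0) : pt x = pt y := by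
  obtain ⟨c, hc, rfl⟩ := (wd_zero_iff hx hy).1 h
  rw [pt_smul c hc]

/-- a point with two equal iterates is preperiodic -/
theorem isPre_of {d : ℕ} (hd : 1 ≤ d) {F : Fin 2 → MvPolynomial (Fin 2) K}
    (hF : ∀ i, (F i).IsHomogeneous d) (h0 : rs F d ≠ 0) {x : Fin 2 → K} (hx : x ≠ 0)
    {i j : ℕ} (hij : i < j) (h : wd ((ev F)^[i] x) ((ev F)^[j] x) = 0) :
    IsPre F x := by
  have key : ∀ n : ℕ, ∃ l < j, pt ((act F)^[n] x) = pt ((act F)^[l] x) := by
    obtain ⟨c, hc, hcx⟩ := (wd_zero_iff (iter_ne hd hF h0 hx i) (iter_ne hd hF h0 hx j)).1 h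
    have key' : ∀ n : ℕ, ∃ l < j, ∃ a : K, a ≠ 0 ∧ (ev F)^[n] x = a • (ev F)^[l] x := by
      intro n
      induction n with
      | zero => exact ⟨0, by omega, 1, one_ne_zero, by simp⟩
      | succ n ih =>
        obtain ⟨l, hl, a, ha, hn⟩ := ih
        have h1 : (ev F)^[n + 1] x = a ^ d • (ev F)^[l + 1] x := by
          rw [Function.iterate_succ_apply', hn, Pool.Agent.H951R3.PB.ev_smul hF,
            Function.iterate_succ_apply']
        by_cases hlj : l + 1 < j
        · exact ⟨l + 1, hlj, a ^ d, pow_ne_zero _ ha, h1⟩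
        · have hl' : l + 1 = j := by omega
          exact ⟨i, hij, a ^ d * c, mul_ne_zero (pow_ne_zero _ ha) hc, by
            rw [h1, hl', hcx, mul_smul]⟩
    intro n
    obtain ⟨l, hl, a, ha, hn⟩ := key' n
    refine ⟨l, hl, ?_⟩
    show pt ((ev F)^[n] x) = _
    rw [hn, pt_smul a ha]
    rfl
  refine Set.Finite.subset ((Finset.range j).finite_toSet.image fun l => pt ((act F)^[l] x)) ?_
  rintro _ ⟨n, rfl⟩
  obtain ⟨l, hl, hn⟩ := key n
  exact ⟨l, by simpa using hl, hn.symm⟩

variable [NumberField K]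

/-- the canonical height of a preperiodic point is zero -/
theorem height_of_isPre {d : ℕ} (hd : 2 ≤ d) {F : Fin 2 → MvPolynomial (Fin 2) K}
    (hF : ∀ i, (F i).IsHomogeneous d) (h0 : rs F d ≠ 0) {x : Fin 2 → K} (hx : x ≠ 0)
    (h : IsPre F x) : Pool.Agent.H951R3.PB.hcan d F x = 0 := by
  obtain ⟨i, j, hij, hpt⟩ : ∃ i j : ℕ, i < j ∧ pt ((act F)^[i] x) = pt ((act F)^[j] x) := by
    by_contra hcon
    push Not at hcon
    have hinj : Function.Injective fun n : ℕ => pt ((act F)^[n] x) := by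
      intro a b hab
      by_contra hne
      rcases lt_or_gt_of_ne hne with hlt | hlt
      · exact hcon a b hlt hab
      · exact hcon b a hlt hab.symm
    exact Set.infinite_range_of_injective hinj h
  have h1 := wd_zero_of_pt hpt
  obtain ⟨c, hc, hcx⟩ := (wd_zero_iff (iter_ne (by omega) hF h0 hx i)
    (iter_ne (by omega) hF h0 hx j)).1 h1
  exact Pool.Agent.H951R3.PB.hcan_pre hd hF h0 hx ⟨i, j, hij, c, hc, hcx⟩

theorem height_tendsto {d : ℕ} (hd : 2 ≤ d) {F : Fin 2 → MvPolynomial (Fin 2) K}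
    (hF : ∀ i, (F i).IsHomogeneous d) (h0 : rs F d ≠ 0) {x : Fin 2 → K} (hx : x ≠ 0) :
    Tendsto (fun j : ℕ => Real.log (Height.mulHeight ((ev F)^[j] x)) / (d : ℝ) ^ j) atTop
      (𝓝 (Pool.Agent.H951R3.PB.hcan d F x)) := by
  have h1 := Pool.Agent.H951R3.PB.hcan_tendsto hd hF h0 hx
  simp only [Height.logHeight_eq_log_mulHeight] at h1
  exact h1

/-- outside the exceptional classes -/
theorem good_of_not_exc {d : ℕ} (hd : 2 ≤ d) {N B X : ℕ} (hN : 1 ≤ N) (hX : 2 ≤ X)
    (hB : ∀ f : Fin 2 → MvPolynomial (Fin 2) K,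
      (∀ i, (f i).IsHomogeneous d) → rs f d ≠ 0 → ∀ S : Finset (Fin 2 → K), (∀ v ∈ S, v ≠ 0) →
      (∀ v ∈ S, ∀ w ∈ S, v ≠ w → wd v w ≠ 0) →
      (∀ v ∈ S, ∃ i j : ℕ, i < j ∧ j ≤ N ∧ wd ((ev f)^[i] v) ((ev f)^[j] v) = 0) → S.card ≤ B)
    {F : Fin 2 → MvPolynomial (Fin 2) K} (hh : ∀ i, (F i).IsHomogeneous d) (h0 : rs F d ≠ 0)
    (hE : ¬ ∃ v : Fin 2 → K, v ≠ 0 ∧
      (∀ i j, i < j → j ≤ N → wd ((ev F)^[i] v) ((ev F)^[j] v) ≠ 0) ∧
      ∃ h : ℝ, h ≤ Real.log X / N ∧ Tendsto (fun j : ℕ =>
        Real.log (Height.mulHeight ((ev F)^[j] v)) / (d : ℝ) ^ j) atTop (𝓝 h)) :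
    {P | ∃ x : Fin 2 → K, x ≠ 0 ∧ P = pt x ∧ IsPre F x}.encard ≤ B ∧
      ∀ x : Fin 2 → K, x ≠ 0 → ¬ IsPre F x → ∃ h : ℝ, 0 ≤ h ∧ Real.log X ≤ N * h ∧
        Tendsto (fun n : ℕ => Real.log (Height.mulHeight ((act F)^[n] x)) / (d : ℝ) ^ n) atTop
          (𝓝 h) := by
  classical
  have hlogX : 0 < Real.log X := Real.log_pos (by exact_mod_cast (by omega : 1 < X))
  have hN0 : (0 : ℝ) < N := by exact_mod_cast hN
  have hdich : ∀ x : Fin 2 → K, x ≠ 0 →
      (∃ i j, i < j ∧ j ≤ N ∧ wd ((ev F)^[i] x) ((ev F)^[j] x) = 0) ∨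
      Real.log X / N < Pool.Agent.H951R3.PB.hcan d F x := by
    intro x hx
    by_contra hcon
    push Not at hcon
    exact hE ⟨x, hx, hcon.1, _, hcon.2, height_tendsto hd hh h0 hx⟩
  have hpre : ∀ x : Fin 2 → K, x ≠ 0 → IsPre F x →
      ∃ i j, i < j ∧ j ≤ N ∧ wd ((ev F)^[i] x) ((ev F)^[j] x) = 0 := by
    intro x hx hp
    refine (hdich x hx).resolve_right ?_
    rw [height_of_isPre hd hh h0 hx hp, not_lt]
    positivity
  constructor
  · by_contra hcon
    push Not at hcon
    have h1 : ((B + 1 : ℕ) : ℕ∞) ≤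
        {P | ∃ x : Fin 2 → K, x ≠ 0 ∧ P = pt x ∧ IsPre F x}.encard := by
      rw [Nat.cast_add, Nat.cast_one]
      exact Order.add_one_le_of_lt hcon
    obtain ⟨t, ht, htc⟩ := Set.exists_subset_encard_eq h1
    have hfin : t.Finite := Set.finite_of_encard_eq_coe htc
    have ht' : ∀ P : Submodule K (Fin 2 → K), ∃ x : Fin 2 → K, P ∈ t →
        x ≠ 0 ∧ P = pt x ∧ IsPre F x := by
      intro P
      by_cases hP : P ∈ t
      · obtain ⟨x, hx⟩ := ht hP
        exact ⟨x, fun _ => hx⟩
      · exact ⟨0, fun h => absurd h hP⟩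
    choose x hx using ht'
    have hx0 : ∀ {P}, P ∈ t → x P ≠ 0 := fun hP => (hx _ hP).1
    have hxP : ∀ {P}, P ∈ t → P = pt (x P) := fun hP => (hx _ hP).2.1
    have hxpre : ∀ {P}, P ∈ t → IsPre F (x P) := fun hP => (hx _ hP).2.2
    set S : Finset (Fin 2 → K) := hfin.toFinset.image x with hS
    have hinj : Set.InjOn x (hfin.toFinset : Set (Submodule K (Fin 2 → K))) := by
      intro P hP Q hQ hPQ
      rw [Set.Finite.coe_toFinset] at hP hQ
      rw [hxP hP, hxP hQ, hPQ]
    have hcardS : S.card = B + 1 := by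
      rw [hS, Finset.card_image_of_injOn hinj, ← Set.ncard_eq_toFinset_card t hfin, Set.ncard, htc]
      rfl
    have hmem : ∀ v ∈ S, ∃ P ∈ t, v = x P := by
      intro v hv
      obtain ⟨P, hP, rfl⟩ := Finset.mem_image.1 hv
      exact ⟨P, by simpa using hP, rfl⟩
    have h2 := hB F hh h0 S (by
      intro v hv
      obtain ⟨P, hP, rfl⟩ := hmem v hv
      exact hx0 hP) (by
      intro v hv v' hv' hne h3
      obtain ⟨P, hP, rfl⟩ := hmem v hv
      obtain ⟨Q, hQ, rfl⟩ := hmem v' hv'
      apply hne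
      have h4 := pt_of_wd (hx0 hP) (hx0 hQ) h3
      rw [← hxP hP, ← hxP hQ] at h4
      rw [h4]) (by
      intro v hv
      obtain ⟨P, hP, rfl⟩ := hmem v hv
      exact hpre _ (hx0 hP) (hxpre hP))
    omega
  · intro x hx hp
    refine ⟨Pool.Agent.H951R3.PB.hcan d F x,
      Pool.Agent.H951R3.PB.hcan_nonneg hd hh h0 hx, ?_, height_tendsto hd hh h0 hx⟩
    rcases hdich x hx with ⟨i, j, hij, -, h3⟩ | h3
    · exact absurd (isPre_of (by omega) hh h0 hx hij h3) hp
    · rw [div_lt_iff₀ hN0] at h3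
      linarith

end K

/-- **Few exceptional conjugacy classes over the number fields of bounded degree.** For every
`d ≥ 2`, `D ≥ 1` and `ε > 0` there are `N` and `C` such that for every `X ≥ 1` there are at most
`C X ^ ε` pairs `G` of complex binary forms such that for every number field `K` of degree at most
`D` and every endomorphism `f` of the projective line of degree `d` over `K` of absolute height at
most `X`, either the images of `f` under all embeddings of `K` in `ℂ` are conjugate over `ℂ` to some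
of the `G`, or `f` has at most `N` preperiodic points in `ℙ¹(K)`, while the canonical height (the
limit of `log H(f^n(x)) / d ^ n`, `H` the absolute height) of every other point of `ℙ¹(K)` is at
least `log X / N`. -/
theorem result (d D : ℕ) (hd : 2 ≤ d) (ε : ℝ) (hε : 0 < ε) :
    ∃ (N : ℕ) (C : ℝ), ∀ X : ℝ, 1 ≤ X →
      ∃ 𝒢 : Finset (Fin 2 → MvPolynomial (Fin 2) ℂ), (𝒢.card : ℝ) ≤ C * X ^ ε ∧
        ∀ (K : Type) [Field K] [NumberField K], Module.finrank ℚ K ≤ D →
        ∀ f : Fin 2 → MvPolynomial (Fin 2) K, IsMap d f →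
          Height.mulHeight (coeffs d f) ≤ X ^ Module.finrank ℚ K →
          (∀ σ : K →+* ℂ, ∃ G ∈ 𝒢, Conj (fun i => (f i).map σ) G) ∨
          ({P | ∃ x : Fin 2 → K, x ≠ 0 ∧ P = pt x ∧ IsPre f x}.encard ≤ N ∧
          ∀ x : Fin 2 → K, x ≠ 0 → ¬ IsPre f x → ∃ h : ℝ, Real.log X ≤ N * h ∧
            Tendsto (fun n : ℕ => Real.log (Height.mulHeight ((act f)^[n] x)) /
              (Module.finrank ℚ K * (d : ℝ) ^ n)) atTop (𝓝 h)) := by
  classical
  obtain ⟨a, ha⟩ := exists_nat_gt (D / ε)
  have ha1 : 1 ≤ a := by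
    have : (0 : ℝ) < a := lt_of_le_of_lt (by positivity) ha
    exact_mod_cast this
  obtain ⟨A, hA⟩ := exists_dt Pool.Agent.Q6.FX.coord Pool.Agent.Q210.FX.gen
    Pool.Agent.Q210.FX.htD d D hd
  obtain ⟨N₀, hN₀, hfew⟩ := fewD absD' Pool.Agent.Q175.FX.alg' bakern' Pool.Agent.Q20.FX.conj'
    d hd D A a ha1
  obtain ⟨B, hB⟩ := Pool.Agent.Q14.FX.cntD d N₀ hd
  refine ⟨max B N₀, 2 * N₀, fun X hX => ?_⟩
  set X' : ℕ := max 2 ⌈X ^ D⌉₊ with hX'
  have hX'2 : 2 ≤ X' := le_max_left _ _
  have hXD : X ^ D ≤ X' := (Nat.le_ceil _).trans (by exact_mod_cast le_max_right _ _)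
  have hXD1 : 1 ≤ X ^ D := one_le_pow₀ hX
  have hX'le : (X' : ℝ) ≤ 2 * X ^ D := by
    have h1 : (⌈X ^ D⌉₊ : ℝ) ≤ X ^ D + 1 := (Nat.ceil_lt_add_one (by positivity)).le
    rw [hX']
    push_cast
    refine max_le (by linarith) (by linarith)
  obtain ⟨𝒢, h2, h3⟩ := hfew X' hX'2
  refine ⟨𝒢, ?_, ?_⟩
  · have hN1 : (1 : ℝ) ≤ N₀ := by exact_mod_cast hN₀
    have h4 : ((𝒢.card : ℝ)) ^ a ≤ (2 * N₀ * X ^ ε) ^ a := by
      calc ((𝒢.card : ℝ)) ^ a ≤ N₀ * X' := by exact_mod_cast h2
        _ ≤ N₀ * (2 * X ^ D) := by gcongr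
        _ = (2 * N₀) * X ^ D := by ring
        _ ≤ (2 * N₀ : ℝ) ^ a * (X ^ ε) ^ a := by
          gcongr
          · exact le_self_pow₀ (by linarith) (by omega)
          · rw [← Real.rpow_natCast X D, ← Real.rpow_natCast (X ^ ε) a,
              ← Real.rpow_mul (by positivity)]
            apply Real.rpow_le_rpow_of_exponent_le hX
            rw [div_lt_iff₀ hε] at ha
            linarith
        _ = _ := (mul_pow _ _ _).symm
    exact le_of_pow_le_pow_left₀ (by omega) (by positivity) h4
  · intro K _ _ hK f hf hfX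
    have hrs : rs f d ≠ 0 := Pool.Agent.TH450.PC.rs_ne_of_noZero (by omega) hf.1 hf.2
    have hfX' : Height.mulHeight (Pool.Agent.H951R3.PB.cf d f) ≤ X' := by
      refine le_trans ?_ hXD
      refine le_trans hfX ?_
      exact pow_le_pow_right₀ hX hK
    by_cases hE : ∃ v : Fin 2 → K, v ≠ 0 ∧
      (∀ i j, i < j → j ≤ N₀ → wd ((ev f)^[i] v) ((ev f)^[j] v) ≠ 0) ∧
      ∃ h : ℝ, h ≤ Real.log X' / N₀ ∧ Tendsto (fun j : ℕ =>
        Real.log (Height.mulHeight ((ev f)^[j] v)) / (d : ℝ) ^ j) atTop (𝓝 h)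
    · left
      intro σ
      obtain ⟨v, hv, hwd, h, hh, hlim⟩ := hE
      obtain ⟨c, hc, r, θ, u, hdt⟩ := hA K hK X' hX'2 N₀ hN₀ f hf.1 hfX' hrs v hv hwd h hh hlim σ
      obtain ⟨G, hG, hFG⟩ := h3 _ ⟨r, θ, u, hdt⟩
      refine ⟨G, hG, ?_⟩
      have h5 : CJC (fun i => (f i).map σ) (fun i => (MvPolynomial.C c * f i).map σ) := by
        refine ⟨1, (σ c)⁻¹, by simp, inv_ne_zero ((map_ne_zero σ).2 hc), fun x => ?_⟩
        funext i
        have hσ : σ c ≠ 0 := (map_ne_zero σ).2 hc
        simp [ev, hσ]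
      exact h5.trans' hFG
    · right
      obtain ⟨h4, h5⟩ := good_of_not_exc hd hN₀ hX'2 (hB K) hf.1 hrs hE
      refine ⟨h4.trans (by exact_mod_cast le_max_left _ _), fun x hx hp => ?_⟩
      obtain ⟨h, hh0, h6, h7⟩ := h5 x hx hp
      set n := Module.finrank ℚ K with hn
      have hn0 : (0 : ℝ) < n := by exact_mod_cast (Module.finrank_pos : 0 < Module.finrank ℚ K)
      refine ⟨h / n, ?_, ?_⟩
      · have hlogX : 0 ≤ Real.log X := Real.log_nonneg hX
        have h8 : n * Real.log X ≤ Real.log X' := by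
          have h9 : X ^ n ≤ X' := (pow_le_pow_right₀ hX hK).trans hXD
          have h10 := Real.log_le_log (by positivity) h9
          rwa [Real.log_pow] at h10
        have h11 : n * Real.log X ≤ (max B N₀ : ℕ) * h := by
          refine (h8.trans h6).trans ?_
          gcongr
          exact le_max_right _ _
        rw [← mul_div_assoc, le_div_iff₀ hn0]
        linarith
      · have h8 := h7.div_const (n : ℝ)
        refine h8.congr fun j => ?_
        rw [div_div, mul_comm ((d : ℝ) ^ j)]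

end Pool.Agent.Q103.RP.Few
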