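import Pool.Agent.Q103.RP.Main
import Pool.Agent.Helper259.HtExt

/-!
# The height of the values of forms at a point
-/

set_option autoImplicit false

namespace Pool.Agent.Q103.RP

open Height
open Pool.Agent.W602.GT (IsForm val coords val_smul)

/-- the word of a monomial -/
theorem exists_word {M κ : ℕ} (m : Fin (M + 1) →₀ ℕ) (hm : m.degree = κ) :
    ∃ w : Fin κ → Fin (M + 1), ∀ (L : Type) [Field L] (a : Fin (M + 1) → L),
      ∏ l, a (w l) = m.prod fun i e => a i ^ e := by
  classical
  obtain ⟨l, hl⟩ : ∃ l, l = (Finsupp.toMultiset m).toList := ⟨_, rfl⟩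
  have hlen : l.length = κ := by
    rw [hl, Multiset.length_toList, Finsupp.card_toMultiset, ← hm]
    rfl
  refine ⟨fun i => l.get (Fin.cast hlen.symm i), fun L _ a => ?_⟩
  have h1 : (l.map a).prod = m.prod fun i e => a i ^ e := by
    rw [← Multiset.prod_coe, ← Multiset.map_coe, hl, Multiset.coe_toList, Finsupp.toMultiset_map,
      Finsupp.prod_toMultiset, Finsupp.prod_mapDomain_index (by simp) (by
        intro b m₁ m₂
        exact pow_add _ _ _)]
  rw [← h1]
  subst hlen
  simp only [Fin.cast_refl, id]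
  conv_rhs => rw [← List.ofFn_get l]
  rw [List.map_ofFn, List.prod_ofFn]
  rfl

/-- **The height of the values of forms.** -/
theorem height_le {k : Type} [Field k] [NumberField k] {M κ : ℕ} {ι : Type} [Finite ι]
    (F : ι → MvPolynomial (Fin (M + 1)) k) (hF : ∀ s, (F s).IsHomogeneous κ) :
    ∃ c : ℝ, 1 ≤ c ∧ ∀ (L : Type) [Field L] [NumberField L] [Algebra k L] (a : Fin (M + 1) → L),
      a ≠ 0 → mulHeight (fun s => val a (F s)) ≤ c ^ Module.finrank ℚ L * mulHeight a ^ κ := by
  classical
  have hw : ∀ m : Fin (M + 1) →₀ ℕ, ∃ w : Fin κ → Fin (M + 1), m.degree = κ →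
      ∀ (L : Type) [Field L] (a : Fin (M + 1) → L), ∏ l, a (w l) = m.prod fun i e => a i ^ e := by
    intro m
    by_cases hm : m.degree = κ
    · obtain ⟨w, hw⟩ := exists_word m hm
      exact ⟨w, fun _ => hw⟩
    · exact ⟨fun _ => 0, fun h => absurd h hm⟩
  choose W hW using hw
  let A : ι × (Fin κ → Fin (M + 1)) → k := fun s =>
    ∑ m ∈ (F s.1).support, if W m = s.2 then (F s.1).coeff m else 0
  have hval : ∀ (L : Type) [Field L] [Algebra k L] (a : Fin (M + 1) → L) (s : ι),
      val a (F s) = ∑ w : Fin κ → Fin (M + 1), algebraMap k L (A (s, w)) * ∏ l, a (w l) := by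
    intro L _ _ a s
    have h1 : ∀ w : Fin κ → Fin (M + 1), algebraMap k L (A (s, w)) * ∏ l, a (w l) =
        ∑ m ∈ (F s).support, if W m = w then algebraMap k L ((F s).coeff m) * ∏ l, a (w l)
          else 0 := by
      intro w
      simp only [A]
      rw [map_sum, Finset.sum_mul]
      refine Finset.sum_congr rfl fun m _ => ?_
      split_ifs
      · rfl
      · rw [map_zero, zero_mul]
    rw [Finset.sum_congr rfl fun w _ => h1 w, Finset.sum_comm]
    unfold val
    rw [MvPolynomial.aeval_def, MvPolynomial.eval₂_eq]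
    refine Finset.sum_congr rfl fun m hm => ?_
    rw [Finset.sum_ite_eq Finset.univ (W m), if_pos (Finset.mem_univ _)]
    have h2 : m.degree = κ := by
      have h3 := hF s (MvPolynomial.mem_support_iff.1 hm)
      rw [← h3, Finsupp.degree_eq_weight_one]
      rfl
    rw [hW m h2 L a]
    rfl
  obtain ⟨Nn, hNn⟩ : ∃ Nn : ℕ, Nn = Nat.card (Fin κ → Fin (M + 1)) := ⟨_, rfl⟩
  have hNn1 : 1 ≤ Nn := by rw [hNn]; exact Nat.card_pos
  have hA1 : 1 ≤ mulHeight A := one_le_mulHeight A
  have hNn1' : (1 : ℝ) ≤ Nn := by exact_mod_cast hNn1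
  refine ⟨Nn * mulHeight A, one_le_mul_of_one_le_of_one_le hNn1' hA1, ?_⟩
  intro L _ _ _ a ha
  have h1 : (fun s => val a (F s)) = fun s => ∑ w : Fin κ → Fin (M + 1),
      (fun r : ι × (Fin κ → Fin (M + 1)) => algebraMap k L (A r)) (s, w) *
        (fun w : Fin κ → Fin (M + 1) => ∏ l, a (w l)) w := by
    funext s
    exact hval L a s
  rw [h1]
  refine (mulHeight_linearMap_apply_le (fun r : ι × (Fin κ → Fin (M + 1)) => algebraMap k L (A r))
    (fun w : Fin κ → Fin (M + 1) => ∏ l, a (w l))).trans ?_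
  rw [Pool.Agent.Helper259.HtExt.mulHeight_ext (K := k) (L := L) A,
    mulHeight_fun_prod_eq (x := fun _ : Fin κ => a) (fun _ => ha), NumberField.totalWeight_eq_finrank,
    Finset.prod_const, Finset.card_univ, Fintype.card_fin, mul_pow, ← hNn]
  have h2 : Module.finrank k L ≤ Module.finrank ℚ L := by
    have h3 : Module.finrank ℚ k * Module.finrank k L = Module.finrank ℚ L :=
      Module.finrank_mul_finrank ℚ k L
    have h4 : 0 < Module.finrank ℚ k := Module.finrank_pos
    rw [← h3]
    exact Nat.le_mul_of_pos_left _ h4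
  have h5 : mulHeight A ^ Module.finrank k L ≤ mulHeight A ^ Module.finrank ℚ L :=
    pow_le_pow_right₀ hA1 h2
  have h6 : 0 ≤ mulHeight a ^ κ := pow_nonneg (zero_le_one.trans (one_le_mulHeight a)) _
  gcongr

end Pool.Agent.Q103.RP
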