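import Pool.Agent.TH466.QG.Spread
import Pool.Agent.TH466.QG.Strong
import Pool.Agent.Q53.EC.Var

/-!
# Specialization of finitely many elements of a function field at points of the variety
-/

set_option autoImplicit false

namespace Pool.Agent.Q103.RP

open Pool.Agent.W602.GT
open Pool.Agent.TH466.QG (adjoin_norm exists_den)
open Pool.Agent.Q53.EC (hze hze_hom val_hze)

/-- The point with homogeneous coordinates `a` in an extension `L` of `k` lies on the projective variety
over `k` with the generic point `x`: the forms which vanish at `x` vanish at `a`. -/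
def IsPt {k K L : Type} [Field k] [Field K] [Algebra k K] [Field L] [Algebra k L] {M : ℕ}
    (x : Fin (M + 1) → K) (a : Fin (M + 1) → L) : Prop :=
  a ≠ 0 ∧ ∀ G : MvPolynomial (Fin (M + 1)) k, IsForm G → val x G = 0 → val a G = 0

section

variable {k K : Type} [Field k] [Field K] [Algebra k K] {σ : Type}

/-- the elements of `K` of the form `G(u) / H(u) ^ n` -/
def loc (u : σ → K) (H : MvPolynomial σ k) (hH : MvPolynomial.aeval u H ≠ 0) : Subalgebra k K where
  carrier := {z | ∃ (G : MvPolynomial σ k) (n : ℕ),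
    z * MvPolynomial.aeval u H ^ n = MvPolynomial.aeval u G}
  mul_mem' := by
    rintro a b ⟨G, n, h⟩ ⟨G', n', h'⟩
    refine ⟨G * G', n + n', ?_⟩
    rw [map_mul, ← h, ← h']
    ring
  add_mem' := by
    rintro a b ⟨G, n, h⟩ ⟨G', n', h'⟩
    refine ⟨G * H ^ n' + G' * H ^ n, n + n', ?_⟩
    rw [map_add, map_mul, map_mul, map_pow, map_pow, ← h, ← h']
    ring
  algebraMap_mem' := by
    intro c
    refine ⟨MvPolynomial.C c, 0, ?_⟩
    rw [pow_zero, mul_one, MvPolynomial.aeval_C]

theorem mem_loc {u : σ → K} {H : MvPolynomial σ k} {hH : MvPolynomial.aeval u H ≠ 0} {z : K} :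
    z ∈ loc u H hH ↔ ∃ (G : MvPolynomial σ k) (n : ℕ),
      z * MvPolynomial.aeval u H ^ n = MvPolynomial.aeval u G := Iff.rfl

/-- the homomorphism from `loc` to a field given by a specialization of `u` -/
theorem exists_hom (u : σ → K) (H : MvPolynomial σ k) (hH : MvPolynomial.aeval u H ≠ 0)
    {L : Type} [Field L] [Algebra k L] (b : σ → L)
    (hb : ∀ G : MvPolynomial σ k, MvPolynomial.aeval u G = 0 → MvPolynomial.aeval b G = 0)
    (hbH : MvPolynomial.aeval b H ≠ 0) :
    ∃ φ : loc u H hH →ₐ[k] L, ∀ (G : MvPolynomial σ k) (h : MvPolynomial.aeval u G ∈ loc u H hH),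
      φ ⟨_, h⟩ = MvPolynomial.aeval b G := by
  classical
  have key : ∀ (G G' : MvPolynomial σ k), MvPolynomial.aeval u G = MvPolynomial.aeval u G' →
      MvPolynomial.aeval b G = MvPolynomial.aeval b G' := by
    intro G G' h
    have h1 := hb (G - G') (by rw [map_sub, h, sub_self])
    rwa [map_sub, sub_eq_zero] at h1
  choose G n hGn using fun z : loc u H hH => mem_loc.1 z.2
  have hu : ∀ (z : loc u H hH) (G' : MvPolynomial σ k) (n' : ℕ),
      (z : K) * MvPolynomial.aeval u H ^ n' = MvPolynomial.aeval u G' →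
      MvPolynomial.aeval b (G z) / MvPolynomial.aeval b H ^ (n z) =
        MvPolynomial.aeval b G' / MvPolynomial.aeval b H ^ n' := by
    intro z G' n' h
    rw [div_eq_div_iff (pow_ne_zero _ hbH) (pow_ne_zero _ hbH), ← map_pow, ← map_pow, ← map_mul,
      ← map_mul]
    apply key
    rw [map_mul, map_mul, map_pow, map_pow, ← h, ← hGn z]
    ring
  refine ⟨{ toFun := fun z => MvPolynomial.aeval b (G z) / MvPolynomial.aeval b H ^ (n z)
            map_one' := ?_
            map_mul' := ?_
            map_zero' := ?_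
            map_add' := ?_
            commutes' := ?_ }, ?_⟩
  · rw [hu 1 1 0 (by simp)]
    simp
  · intro z w
    rw [hu (z * w) (G z * G w) (n z + n w) (by
      rw [map_mul, ← hGn z, ← hGn w, Subalgebra.coe_mul]
      ring)]
    rw [map_mul, pow_add, mul_div_mul_comm]
  · rw [hu 0 0 0 (by simp)]
    simp
  · intro z w
    rw [hu (z + w) (G z * H ^ (n w) + G w * H ^ (n z)) (n z + n w) (by
      rw [map_add, map_mul, map_mul, map_pow, map_pow, ← hGn z, ← hGn w, Subalgebra.coe_add]
      ring)]
    rw [map_add, map_mul, map_mul, map_pow, map_pow, pow_add]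
    field_simp
  · intro c
    rw [hu (algebraMap k _ c) (MvPolynomial.C c) 0 (by
      rw [pow_zero, mul_one, MvPolynomial.aeval_C]
      rfl)]
    rw [pow_zero, div_one, MvPolynomial.aeval_C]
  · intro G' h
    show MvPolynomial.aeval b (G ⟨_, h⟩) / MvPolynomial.aeval b H ^ (n ⟨_, h⟩) = _
    rw [hu ⟨_, h⟩ G' 0 (by rw [pow_zero, mul_one]), pow_zero, div_one]

end

/-- **Specialization.** For finitely many elements `C` of the function field `K` of a projective variety
over `k` there are a form `R` which does not vanish on the variety and a subring `T` of `K` which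
contains `C` and the normalized coordinates such that every point with `R(a) ≠ 0` over an extension `L`
of `k` gives a homomorphism from `T` to `L`. -/
theorem spec {k K : Type} [Field k] [Field K] [Algebra k K] {M : ℕ} {x : Fin (M + 1) → K}
    (hgen : coords k x = ⊤) {j0 : Fin (M + 1)} (hj0 : x j0 ≠ 0) {C : Set K} (hC : C.Finite) :
    ∃ (R : MvPolynomial (Fin (M + 1)) k) (T : Subalgebra k K), IsForm R ∧ val x R ≠ 0 ∧ C ⊆ T ∧
      (∀ i, x i / x j0 ∈ T) ∧
      ∀ (L : Type) [Field L] [Algebra k L] (a : Fin (M + 1) → L), IsPt (k := k) x a → val a R ≠ 0 →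
        a j0 ≠ 0 ∧ ∃ φ : T →ₐ[k] L, ∀ (i : Fin (M + 1)) (h : x i / x j0 ∈ T),
          φ ⟨_, h⟩ = a i / a j0 := by
  classical
  obtain ⟨H, hH, hG⟩ := exists_den (adjoin_norm hgen hj0) hC
  have hX : ∀ i, MvPolynomial.aeval (fun i => x i / x j0) (MvPolynomial.X i : MvPolynomial
      (Fin (M + 1)) k) = x i / x j0 := fun i => MvPolynomial.aeval_X _ _
  refine ⟨MvPolynomial.X j0 * hze j0 H.totalDegree H, loc (fun i => x i / x j0) H hH, ?_, ?_, ?_,
    ?_, ?_⟩
  · exact ⟨_, (MvPolynomial.isHomogeneous_X k j0).mul (hze_hom j0 _ H le_rfl)⟩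
  · unfold val
    rw [map_mul, MvPolynomial.aeval_X]
    refine mul_ne_zero hj0 ?_
    change val x _ ≠ 0
    rw [val_hze _ H le_rfl hj0]
    exact mul_ne_zero (pow_ne_zero _ hj0) hH
  · intro c hc
    obtain ⟨G, hG⟩ := hG c hc
    exact ⟨G, 1, by rw [pow_one, hG]⟩
  · intro i
    exact ⟨MvPolynomial.X i, 0, by rw [pow_zero, mul_one, hX]⟩
  · intro L _ _ a ha haR
    have h1 : a j0 ≠ 0 ∧ val a (hze j0 H.totalDegree H) ≠ 0 := by
      unfold val at haR ⊢
      rw [map_mul, MvPolynomial.aeval_X] at haR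
      exact ⟨left_ne_zero_of_mul haR, right_ne_zero_of_mul haR⟩
    obtain ⟨ha0, h2⟩ := h1
    refine ⟨ha0, ?_⟩
    rw [val_hze _ H le_rfl ha0] at h2
    have h3 : MvPolynomial.aeval (fun i => a i / a j0) H ≠ 0 := right_ne_zero_of_mul h2
    obtain ⟨φ, hφ⟩ := exists_hom (fun i => x i / x j0) H hH (fun i => a i / a j0) (by
      intro G hG0
      have h4 : val x (hze j0 G.totalDegree G) = 0 := by
        rw [val_hze _ G le_rfl hj0, hG0, mul_zero]
      have h5 := ha.2 _ ⟨_, hze_hom j0 _ G le_rfl⟩ h4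
      rw [val_hze _ G le_rfl ha0] at h5
      exact (mul_eq_zero.1 h5).resolve_left (pow_ne_zero _ ha0)) h3
    refine ⟨φ, fun i h => ?_⟩
    have h6 : (⟨x i / x j0, h⟩ : loc (fun i => x i / x j0) H hH) =
        ⟨MvPolynomial.aeval (fun i => x i / x j0) (MvPolynomial.X i : MvPolynomial
          (Fin (M + 1)) k), by rw [hX]; exact h⟩ := by
      apply Subtype.ext
      exact (hX i).symm
    rw [h6, hφ, MvPolynomial.aeval_X]

end Pool.Agent.Q103.RP
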