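import Pool.Agent.Q103.RP.Cpx
import Pool.Agent.Q103.RP.Alg
import Pool.Agent.Q103.RP.Spc

/-!
# Specialization of a map with marked points
-/

set_option autoImplicit false

namespace Pool.Agent.Q103.RP

open Polynomial
open Pool.Agent.Q103.RP.Few (act IsMap coeffs Conj pt IsPre iter_ne)
open Pool.Agent.H951R3.PB (wd ev rs dh)
open Pool.Agent.Q256.FX (CJC)
open Pool.Agent.W277.UH (hev)
open Pool.Agent.Q68.GT (common)
open Pool.Agent.W602.GT (val val_smul)

/-- the image of a configuration under a homomorphism -/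
theorem cfg_hom {A E : Type} [CommRing A] [Field E] (χ : A →+* E) {d n : ℕ} (hn : 2 ≤ n)
    {τ : Fin n → Fin n} (u : Fin 2 × Fin (d + 1) → A) (V : Fin n → Fin 2 → A) (c c' : Fin n → A)
    (w : Fin n → Fin n → A) (hw : ∀ i j, i ≠ j → (V i 0 * V j 1 - V i 1 * V j 0) * w i j = 1)
    (hc : ∀ i, c i * c' i = 1)
    (hmap : ∀ i l, ∑ j : Fin (d + 1), u (l, j) * V i 0 ^ (j : ℕ) * V i 1 ^ (d - j) =
      c i * V (τ i) l) :
    Cfg n τ (mk d fun s => χ (u s)) (fun i l => χ (V i l)) := by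
  have hwd : ∀ i j, i ≠ j → wd (fun l => χ (V i l)) (fun l => χ (V j l)) ≠ 0 := by
    intro i j hij h0
    have h1 := congrArg χ (hw i j hij)
    rw [map_mul, map_one, map_sub, map_mul, map_mul] at h1
    have h2 : χ (V i 0) * χ (V j 1) - χ (V i 1) * χ (V j 0) = 0 := h0
    rw [h2, zero_mul] at h1
    exact zero_ne_one h1
  refine ⟨?_, hwd, ?_⟩
  · intro i h0
    obtain ⟨j, hj⟩ : ∃ j, i ≠ j := by
      by_cases hi : i = ⟨0, by omega⟩
      · refine ⟨⟨1, by omega⟩, ?_⟩
        rw [hi]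
        intro h1
        simp [Fin.ext_iff] at h1
      · exact ⟨_, hi⟩
    apply hwd i j hj
    have h1 : (fun l => χ (V i l)) = 0 := h0
    rw [h1]
    simp [wd]
  · intro i
    refine ⟨χ (c i), ?_, ?_⟩
    · intro h0
      have h1 := congrArg χ (hc i)
      rw [map_mul, map_one, h0, zero_mul] at h1
      exact zero_ne_one h1
    · funext l
      show MvPolynomial.eval _ (mk d _ l) = _
      rw [mk_eval, Pi.smul_apply, smul_eq_mul, ← map_mul, ← hmap i l, map_sum]
      refine Finset.sum_congr rfl fun j _ => ?_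
      rw [map_mul, map_mul, map_pow, map_pow]

theorem ev_C_mul {E : Type} [Field E] {e : E} {f g : Fin 2 → MvPolynomial (Fin 2) E}
    (h : ∀ i, f i = MvPolynomial.C e * g i) (v : Fin 2 → E) : ev f v = e • ev g v := by
  funext i
  show MvPolynomial.eval v (f i) = e * MvPolynomial.eval v (g i)
  rw [h, map_mul, MvPolynomial.eval_C]

theorem cfg_smul {E : Type} [Field E] {n : ℕ} {τ : Fin n → Fin n} {e : E} (he : e ≠ 0)
    {f g : Fin 2 → MvPolynomial (Fin 2) E} (h : ∀ i, f i = MvPolynomial.C e * g i)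
    {W : Fin n → Fin 2 → E} (hW : Cfg n τ f W) : Cfg n τ g W := by
  refine ⟨hW.ne, hW.wd, fun i => ?_⟩
  obtain ⟨c, hc, h1⟩ := hW.map i
  refine ⟨e⁻¹ * c, mul_ne_zero (inv_ne_zero he) hc, ?_⟩
  rw [ev_C_mul h] at h1
  rw [mul_smul, ← h1, smul_smul, inv_mul_cancel₀ he, one_smul]

theorem isMap_smul {E : Type} [Field E] {d : ℕ} {e : E}
    {f g : Fin 2 → MvPolynomial (Fin 2) E} (h : ∀ i, f i = MvPolynomial.C e * g i)
    (hg : ∀ i, (g i).IsHomogeneous d) (hf : IsMap d f) : IsMap d g := by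
  refine ⟨hg, fun x hx => hf.2 x fun i => ?_⟩
  rw [h, map_mul, hx, mul_zero]

theorem cjc_smul {e : ℂ} (he : e ≠ 0) {f g G : Fin 2 → MvPolynomial (Fin 2) ℂ}
    (h : ∀ i, f i = MvPolynomial.C e * g i) (hg : CJC g G) : CJC f G := by
  obtain ⟨A, c, hA, hc, h1⟩ := hg
  refine ⟨A, e * c, hA, mul_ne_zero he hc, fun v => ?_⟩
  rw [ev_C_mul h, h1, smul_smul]

/-- the resultant of a rational map does not vanish -/
theorem rs_ne {K : Type} [Field K] {d : ℕ} (hd : 1 ≤ d) {p q : K[X]} (hco : IsCoprime p q)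
    (hmax : max p.natDegree q.natDegree = d) : rs (mk d (cfv d p q)) d ≠ 0 := by
  refine Pool.Agent.TH450.PC.rs_ne_of_noZero hd (fun i => mk_hom d _ i) ?_
  intro x hx
  by_contra hx0
  set φ := algebraMap K (AlgebraicClosure K) with hφ
  have hcoφ : IsCoprime (p.map φ) (q.map φ) := hco.map (mapRingHom φ)
  have hmaxφ : max (p.map φ).natDegree (q.map φ).natDegree = d := by
    rw [natDegree_map, natDegree_map, hmax]
  have h1 : ∀ i, MvPolynomial.eval x (mk d (cfv d (p.map φ) (q.map φ)) i) = 0 := by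
    intro i
    have h2 := hx i
    rw [MvPolynomial.aeval_def, ← MvPolynomial.eval_map, mk_map] at h2
    have h3 : (fun s => φ (cfv d p q s)) = cfv d (p.map φ) (q.map φ) := by
      funext s
      unfold cfv
      split_ifs
      · rw [coeff_map]
      · rw [coeff_map]
    rw [← hφ, h3] at h2
    exact h2
  have h2 := mk_hev d (p.map φ) (q.map φ) x
  refine common hd hcoφ hmaxφ (pr_ne hx0) ?_ ?_
  · rw [← h2.1]; exact h1 0
  · rw [← h2.2]; exact h1 1

end Pool.Agent.Q103.RP
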