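import Pool.Agent.Q103.RP.Stm
import Pool.Agent.Q103.EC.Hyp

/-!
# One closed subset for the complex hyperbolicity and for the points of bounded degree
-/

set_option autoImplicit false

namespace Pool.Agent.Q103.RP

open Polynomial Height
open Pool.Agent.W602.GT (IsForm val coords GeneralType)
open Pool.Agent.Q41.SU (Stab)
open Pool.Agent.Q41.GT (crs)
open Pool.Agent.Q103.EC (ManyPrep prePer HypOff hyp_crs exists_stab isForm_mul val_mul')

section

variable {k K L : Type} [Field k] [Field K] [Algebra k K] [Field L] [Algebra K L] [Algebra k ℂ]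
  [Algebra ℂ L] [Algebra k L] [IsScalarTower k K L] [IsScalarTower k ℂ L]

/-- elements algebraic over a subfield generated over `k` are algebraic over the subfield generated
over the complex numbers -/
theorem alg_up {S : Set K} {S' : Set L} (hS : ∀ c ∈ S, algebraMap K L c ∈ S') {z : K}
    (hz : IsAlgebraic (IntermediateField.adjoin k S) z) :
    IsAlgebraic (IntermediateField.adjoin ℂ S') (algebraMap K L z) := by
  set F' := IntermediateField.adjoin ℂ S' with hF'
  have hk : ∀ c : k, algebraMap K L (algebraMap k K c) ∈ F' := by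
    intro c
    rw [← IsScalarTower.algebraMap_apply k K L, IsScalarTower.algebraMap_apply k ℂ L]
    exact F'.algebraMap_mem _
  let F0 : IntermediateField k K :=
    { F'.toSubfield.comap (algebraMap K L) with
      algebraMap_mem' := fun c => hk c }
  have hle : IntermediateField.adjoin k S ≤ F0 := by
    rw [IntermediateField.adjoin_le_iff]
    intro c hc
    exact IntermediateField.subset_adjoin ℂ S' (hS c hc)
  let ψ : IntermediateField.adjoin k S →+* F' :=
    { toFun := fun c => ⟨algebraMap K L c, hle c.2⟩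
      map_one' := by
        apply Subtype.ext
        exact map_one _
      map_mul' := fun a b => by
        apply Subtype.ext
        exact map_mul (algebraMap K L) _ _
      map_zero' := by
        apply Subtype.ext
        exact map_zero _
      map_add' := fun a b => by
        apply Subtype.ext
        exact map_add (algebraMap K L) _ _ }
  exact hz.ringHom_of_comp_eq ψ (algebraMap K L) ψ.injective rfl

theorem crs_image [DecidableEq L] (P : Finset K) (c : K) (hc : c ∈ crs P) :
    algebraMap K L c ∈ crs (P.image (algebraMap K L)) := by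
  obtain ⟨x0, h0, x1, h1, x2, h2, y, hy, n1, n2, n3, n4, n5, rfl⟩ := hc
  have hinj := (algebraMap K L).injective
  refine ⟨_, Finset.mem_image_of_mem _ h0, _, Finset.mem_image_of_mem _ h1, _,
    Finset.mem_image_of_mem _ h2, _, Finset.mem_image_of_mem _ hy, hinj.ne n1, hinj.ne n2,
    hinj.ne n3, hinj.ne n4, hinj.ne n5, ?_⟩
  simp only [map_div₀, map_mul, map_sub]

theorem stab_image [DecidableEq L] {p q : K[X]} {P : Finset K} (h : Stab p q P) :
    Stab (p.map (algebraMap K L)) (q.map (algebraMap K L)) (P.image (algebraMap K L)) := by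
  intro z hz
  obtain ⟨y, hy, rfl⟩ := Finset.mem_image.1 hz
  obtain ⟨h1, h2⟩ := h y hy
  rw [eval_map_algebraMap, eval_map_algebraMap, aeval_algebraMap_apply, aeval_algebraMap_apply]
  refine ⟨?_, ?_⟩
  · intro h0
    exact h1 ((map_eq_zero _).1 h0)
  · rw [← map_div₀]
    exact Finset.mem_image_of_mem _ h2

end

/-- **Hyperbolicity** of the components of the complex variety. -/
theorem hyp_over (d : ℕ) (hd : 2 ≤ d) : ∃ B : ℕ, ∀ (k : Type) [Field k] [CharZero k] [Algebra k ℂ]
    (K : Type) [Field K] [Algebra k K] (p q : K[X]), ManyPrep k d B p q →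
    ∀ (L : Type) [Field L] [Algebra ℂ L] [Algebra K L] [Algebra k L] [IsScalarTower k K L]
      [IsScalarTower k ℂ L] (M : ℕ) (x : Fin (M + 1) → K), x ≠ 0 →
      coords ℂ (fun i => algebraMap K L (x i)) = ⊤ →
      ∃ R, HypOff (fun i => algebraMap K L (x i)) R := by
  classical
  obtain ⟨B, hB⟩ := hyp_crs d hd
  refine ⟨max B (3 * d + 7), ?_⟩
  intro k _ _ _ K _ _ p q h L _ _ _ _ _ _ M x hx hgen
  obtain ⟨p', q', P', hp', hq', hpq', hst, hc, halg⟩ := exists_stab hd (le_max_right _ _) h
  have hinj := (algebraMap K L).injective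
  have halg' : Algebra.IsAlgebraic
      (IntermediateField.adjoin ℂ (crs (P'.image (algebraMap K L)))) L := by
    set F := IntermediateField.adjoin ℂ (crs (P'.image (algebraMap K L))) with hF
    have h1 : coords ℂ (fun i => algebraMap K L (x i)) ≤
        (algebraicClosure F L).restrictScalars ℂ := by
      unfold coords
      rw [IntermediateField.adjoin_le_iff]
      rintro z ⟨i, j, hj, rfl⟩
      have h2 : IsAlgebraic F (algebraMap K L (x i / x j)) :=
        alg_up (crs_image P') (halg.isAlgebraic _)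
      rw [map_div₀] at h2
      exact mem_algebraicClosure_iff.2 h2
    refine ⟨fun y => ?_⟩
    have h3 : y ∈ (algebraicClosure F L).restrictScalars ℂ := h1 (by rw [hgen]; trivial)
    exact mem_algebraicClosure_iff.1 h3
  obtain ⟨-, h2⟩ := hB L (p'.map (algebraMap K L)) (q'.map (algebraMap K L))
    (by rw [natDegree_map]; exact hp') (by rw [natDegree_map]; exact hq')
    (hpq'.map (mapRingHom (algebraMap K L))) (P'.image (algebraMap K L)) (stab_image hst)
    (by rw [Finset.card_image_of_injective _ hinj]; exact le_trans (le_max_left _ _) hc) halg'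
  refine h2 M _ ?_ hgen
  intro h0
  apply hx
  funext i
  have h3 := congrFun h0 i
  exact (map_eq_zero (algebraMap K L)).1 h3

/-- a larger closed subset -/
theorem hypOff_mul {M : ℕ} {L : Type} [Field L] [Algebra ℂ L] {x : Fin (M + 1) → L}
    {R S : MvPolynomial (Fin (M + 1)) ℂ} (h : HypOff x R) (hS : IsForm S) (hx : val x S ≠ 0) :
    HypOff x (R * S) := by
  refine ⟨isForm_mul h.form hS, ?_, ?_, ?_, ?_, ?_, ?_, ?_, ?_, ?_⟩
  · rw [val_mul']
    exact mul_ne_zero h.ne hx
  · intro E _ _ w z hz hR hw htr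
    rw [val_mul'] at hR
    exact h.sub E w z hz (left_ne_zero_of_mul hR) hw htr
  · intro f hf t ht
    rw [map_mul, h.disc f hf t ht, zero_mul]
  · intro f hf t
    rw [map_mul, h.curve f hf t, zero_mul]
  · intro g f hf t
    rw [map_mul, h.mero g f hf t, zero_mul]
  · intro f hf t ht
    rw [map_mul, h.torus f hf t ht, zero_mul]
  · intro E _ _ _ c a ha hR
    rw [val_mul'] at hR
    exact h.pointed E c a ha (left_ne_zero_of_mul hR)
  · obtain ⟨A, hA⟩ := h.degree
    refine ⟨A, fun E _ _ _ f hf hR => ?_⟩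
    rw [val_mul'] at hR
    exact hA E f hf (left_ne_zero_of_mul hR)
  · intro a b ha hb hab hR
    refine h.kobayashi a b ha hb hab ?_
    rcases hR with hR | hR
    · rw [map_mul] at hR
      exact Or.inl (left_ne_zero_of_mul hR)
    · rw [map_mul] at hR
      exact Or.inr (left_ne_zero_of_mul hR)

/-- The points over number fields `L` of degree at most `D` which contain `k`, as points of the complex
projective space (by all embeddings of `L` in the complex numbers over `k`), of the projective variety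
over `k` with the generic point `x`, which do not lie on the complex hypersurface `R = 0` and at which the
vector of the values of the forms `F` has absolute height at most `T`. -/
def algPts (k : Type) [Field k] [Algebra k ℂ] {K : Type} [Field K] [Algebra k K] {M : ℕ}
    (x : Fin (M + 1) → K) (R : MvPolynomial (Fin (M + 1)) ℂ) {ι : Type}
    (F : ι → MvPolynomial (Fin (M + 1)) k) (D : ℕ) (T : ℝ) :
    Set (Submodule ℂ (Fin (M + 1) → ℂ)) :=
  {P | ∃ (L : Type) (_ : Field L) (_ : NumberField L) (_ : Algebra k L) (σ : L →ₐ[k] ℂ)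
    (a : Fin (M + 1) → L), Module.finrank ℚ L ≤ D ∧ IsPt (k := k) x a ∧
      MvPolynomial.eval (fun i => σ (a i)) R ≠ 0 ∧
      Height.mulHeight (fun s => val a (F s)) ≤ T ^ Module.finrank ℚ L ∧
      P = Submodule.span ℂ {fun i => σ (a i)}}

theorem algPts_sub (k : Type) [Field k] [Algebra k ℂ] {K : Type} [Field K] [Algebra k K] {M : ℕ}
    (x : Fin (M + 1) → K) (R : MvPolynomial (Fin (M + 1)) ℂ) (S : MvPolynomial (Fin (M + 1)) k)
    {ι : Type} (F : ι → MvPolynomial (Fin (M + 1)) k) (D : ℕ) (T : ℝ) :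
    algPts k x (R * MvPolynomial.map (algebraMap k ℂ) S) F D T ⊆ lowPts k x S F D T := by
  rintro P ⟨L, i1, i2, i3, σ, a, hL, ha, haR, hht, rfl⟩
  refine ⟨L, i1, i2, i3, σ, a, hL, ha, ?_, hht, rfl⟩
  intro h0
  rw [map_mul] at haR
  apply right_ne_zero_of_mul haR
  have h1 : σ (val a S) = MvPolynomial.eval (fun i => σ (a i))
      (MvPolynomial.map (algebraMap k ℂ) S) := by
    rw [MvPolynomial.eval_map, ← MvPolynomial.aeval_def]
    unfold val
    exact MvPolynomial.comp_aeval_apply (f := a) (φ := σ) S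
  rw [← h1, h0, map_zero]

/-- **One closed subset for everything.** -/
theorem hyp_sparse (d : ℕ) (hd : 2 ≤ d) : ∃ (B₀ : ℕ) (B : ℕ → ℝ → ℕ),
    ∀ (k : Type) [Field k] [NumberField k] [Algebra k ℂ] (K : Type) [Field K] [Algebra k K] (M : ℕ)
      (x : Fin (M + 1) → K), x ≠ 0 → coords k x = ⊤ →
      ∀ (n : ℕ) (p q : K[X]), B₀ ≤ n → ManyPrep k d n p q →
      ∀ (E : Type) [Field E] [Algebra ℂ E] [Algebra K E] [Algebra k E] [IsScalarTower k K E]
        [IsScalarTower k ℂ E], coords ℂ (fun i => algebraMap K E (x i)) = ⊤ →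
      ∀ (κ : ℕ) (F : Fin 2 × Fin (d + 1) → MvPolynomial (Fin (M + 1)) k) (t : K),
        (∀ s, (F s).IsHomogeneous κ) → t ≠ 0 → (∀ s, cfv d p q s = t * val x (F s)) →
        ∃ R : MvPolynomial (Fin (M + 1)) ℂ, HypOff (fun i => algebraMap K E (x i)) R ∧
          ∀ (D : ℕ) (ε : ℝ), 0 < ε → B D ε ≤ n → ∃ C : ℝ, ∀ T : ℝ, 1 ≤ T →
          ((algPts k x R F D T).Finite ∧ ((algPts k x R F D T).ncard : ℝ) ≤ C * T ^ ε) ∧
          (algPts k x R MvPolynomial.X D T).Finite ∧
            ((algPts k x R MvPolynomial.X D T).ncard : ℝ) ≤ C * T ^ (κ * ε) := by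
  obtain ⟨B1, B, hB⟩ := sparse d hd
  obtain ⟨B2, hB2⟩ := hyp_over d hd
  refine ⟨max B1 B2, B, ?_⟩
  intro k _ _ _ K _ _ M x hx hgen n p q hn hmp E _ _ _ _ _ _ hgen' κ F t hF ht hFt
  obtain ⟨-, h1⟩ := hB k K M x hx hgen n p q (le_trans (le_max_left _ _) hn) hmp
  obtain ⟨S, hS, hSx, hSC⟩ := h1 κ F t hF ht hFt
  obtain ⟨R, hR⟩ := hB2 k K p q (manyPrep_mono (le_trans (le_max_right _ _) hn) hmp) E M x hx hgen'
  refine ⟨R * MvPolynomial.map (algebraMap k ℂ) S, hypOff_mul hR ?_ ?_, ?_⟩
  · obtain ⟨e, he⟩ := hS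
    exact ⟨e, he.map _⟩
  · have h2 : val (fun i => algebraMap K E (x i)) (MvPolynomial.map (algebraMap k ℂ) S) =
        algebraMap K E (val x S) := by
      unfold val
      rw [MvPolynomial.aeval_map_algebraMap]
      exact MvPolynomial.aeval_algebraMap_apply E x S
    rw [h2]
    intro h3
    exact hSx ((map_eq_zero _).1 h3)
  · intro D ε hε hBD
    obtain ⟨C, hC⟩ := hSC D ε hε hBD
    refine ⟨C, fun T hT => ?_⟩
    obtain ⟨⟨f1, c1⟩, f2, c2⟩ := hC T hT
    have s1 := algPts_sub k x R S F D T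
    have s2 := algPts_sub k x R S MvPolynomial.X D T
    refine ⟨⟨f1.subset s1, le_trans ?_ c1⟩, f2.subset s2, le_trans ?_ c2⟩
    · exact_mod_cast Set.ncard_le_ncard s1 f1
    · exact_mod_cast Set.ncard_le_ncard s2 f2

/-- The conditions of Lang's conjectures on the proper closed subset `Z = {R = 0}` of the complex projective
variety `X` with the generic point `x`, for subvarieties, entire curves and the Kobayashi
pseudodistance. -/
structure LangOff {M : ℕ} {L : Type} [Field L] [Algebra ℂ L] (x : Fin (M + 1) → L)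
    (R : MvPolynomial (Fin (M + 1)) ℂ) : Prop where
  form : IsForm R
  ne : val x R ≠ 0
  /-- all closed subvarieties of positive dimension which are not contained in `Z` are of general
  type -/
  sub : ∀ (E : Type) [Field E] [Algebra ℂ E] (w : ℕ) (z : Fin (M + 1) → E),
    Pool.Agent.TH466.QG.SubOf ℂ x z → val z R ≠ 0 → 1 ≤ w → Algebra.trdeg ℂ E = w →
    GeneralType ℂ E w
  /-- `Z` contains all entire curves -/
  curve : ∀ f, Pool.Agent.Y221.BD.EntireCurve x f → ∀ t, MvPolynomial.eval (fun i => f i t) R = 0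
  /-- the Kobayashi pseudodistance of two different points which are not both in `Z` is positive -/
  kobayashi : ∀ a b : Fin (M + 1) → ℂ, Pool.Agent.Q103.KO.IsPoint x a →
    Pool.Agent.Q103.KO.IsPoint x b → ¬ Pool.Agent.Q103.KO.SameP a b →
    (MvPolynomial.eval a R ≠ 0 ∨ MvPolynomial.eval b R ≠ 0) →
    ∃ ε : ℝ, 0 < ε ∧ ∀ l : ℝ, Pool.Agent.Q103.KO.Chain x a b l → ε ≤ l

/-- **One closed subset** for the subvarieties, the entire curves, the Kobayashi pseudodistance and the
points of bounded degree. -/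
theorem lang_sparse (d : ℕ) (hd : 2 ≤ d) : ∃ (B₀ : ℕ) (B : ℕ → ℝ → ℕ),
    ∀ (k : Type) [Field k] [NumberField k] [Algebra k ℂ] (K : Type) [Field K] [Algebra k K] (M : ℕ)
      (x : Fin (M + 1) → K), x ≠ 0 → coords k x = ⊤ →
      ∀ (n : ℕ) (p q : K[X]), B₀ ≤ n → ManyPrep k d n p q →
      ∀ (E : Type) [Field E] [Algebra ℂ E] [Algebra K E] [Algebra k E] [IsScalarTower k K E]
        [IsScalarTower k ℂ E], coords ℂ (fun i => algebraMap K E (x i)) = ⊤ →
      ∀ (κ : ℕ) (F : Fin 2 × Fin (d + 1) → MvPolynomial (Fin (M + 1)) k) (t : K),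
        (∀ s, (F s).IsHomogeneous κ) → t ≠ 0 → (∀ s, cfv d p q s = t * val x (F s)) →
        ∃ R : MvPolynomial (Fin (M + 1)) ℂ, LangOff (fun i => algebraMap K E (x i)) R ∧
          ∀ (D : ℕ) (ε : ℝ), 0 < ε → B D ε ≤ n → ∃ C : ℝ, ∀ T : ℝ, 1 ≤ T →
          ((algPts k x R F D T).Finite ∧ ((algPts k x R F D T).ncard : ℝ) ≤ C * T ^ ε) ∧
          (algPts k x R MvPolynomial.X D T).Finite ∧
            ((algPts k x R MvPolynomial.X D T).ncard : ℝ) ≤ C * T ^ (κ * ε) := by
  obtain ⟨B₀, B, hB⟩ := hyp_sparse d hd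
  refine ⟨B₀, B, ?_⟩
  intro k _ _ _ K _ _ M x hx hgen n p q hn hmp E _ _ _ _ _ _ hgen' κ F t hF ht hFt
  obtain ⟨R, hR, h⟩ := hB k K M x hx hgen n p q hn hmp E hgen' κ F t hF ht hFt
  exact ⟨R, ⟨hR.form, hR.ne, hR.sub, hR.curve, hR.kobayashi⟩, h⟩

end Pool.Agent.Q103.RP
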