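import Pool.Agent.Q103.RP.Hom

/-!
# Sparsity of the points of bounded degree
-/

set_option autoImplicit false

namespace Pool.Agent.Q103.RP

open Polynomial
open Pool.Agent.Q103.RP.Few (act IsMap coeffs Conj pt IsPre iter_ne)
open Pool.Agent.H951R3.PB (wd ev rs dh)
open Pool.Agent.Q256.FX (CJC)
open Pool.Agent.W602.GT (IsForm val coords val_smul)
open Pool.Agent.Q103.EC (ManyPrep prePer)
open Pool.Agent.Q103.VR (DefinedOver)

/-- The images of the points `a` of the projective variety over `k` with the generic point `x`, over number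
fields `L` of degree at most `D` which contain `k`, under the rational map `a ↦ (g₀(a) : g₁(a) : …)`,
as points of the complex projective space (by all embeddings of `L` in the complex numbers over `k`);
only the points `a` which do not lie on `R = 0` and at which the vector of the values of the forms `F`
has absolute height at most `T` are considered. -/
def lowVals (k : Type) [Field k] [Algebra k ℂ] {K : Type} [Field K] [Algebra k K] {M r : ℕ}
    (x : Fin (M + 1) → K) (R : MvPolynomial (Fin (M + 1)) k) {ι : Type}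
    (F : ι → MvPolynomial (Fin (M + 1)) k) (g : Fin (r + 1) → MvPolynomial (Fin (M + 1)) k)
    (D : ℕ) (T : ℝ) : Set (Submodule ℂ (Fin (r + 1) → ℂ)) :=
  {P | ∃ (L : Type) (_ : Field L) (_ : NumberField L) (_ : Algebra k L) (σ : L →ₐ[k] ℂ)
    (a : Fin (M + 1) → L), Module.finrank ℚ L ≤ D ∧ IsPt (k := k) x a ∧ val a R ≠ 0 ∧
      Height.mulHeight (fun s => val a (F s)) ≤ T ^ Module.finrank ℚ L ∧
      P = Submodule.span ℂ {fun i => σ (val a (g i))}}

/-- The points over number fields `L` of degree at most `D` which contain `k`, as points of the complex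
projective space (by all embeddings of `L` in the complex numbers over `k`), of the projective variety
over `k` with the generic point `x`, which do not lie on `R = 0` and at which the vector of the values
of the forms `F` has absolute height at most `T`. -/
def lowPts (k : Type) [Field k] [Algebra k ℂ] {K : Type} [Field K] [Algebra k K] {M : ℕ}
    (x : Fin (M + 1) → K) (R : MvPolynomial (Fin (M + 1)) k) {ι : Type}
    (F : ι → MvPolynomial (Fin (M + 1)) k) (D : ℕ) (T : ℝ) :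
    Set (Submodule ℂ (Fin (M + 1) → ℂ)) :=
  {P | ∃ (L : Type) (_ : Field L) (_ : NumberField L) (_ : Algebra k L) (σ : L →ₐ[k] ℂ)
    (a : Fin (M + 1) → L), Module.finrank ℚ L ≤ D ∧ IsPt (k := k) x a ∧ val a R ≠ 0 ∧
      Height.mulHeight (fun s => val a (F s)) ≤ T ^ Module.finrank ℚ L ∧
      P = Submodule.span ℂ {fun i => σ (a i)}}

theorem lowPts_eq (k : Type) [Field k] [Algebra k ℂ] {K : Type} [Field K] [Algebra k K] {M : ℕ}
    (x : Fin (M + 1) → K) (R : MvPolynomial (Fin (M + 1)) k) {ι : Type}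
    (F : ι → MvPolynomial (Fin (M + 1)) k) (D : ℕ) (T : ℝ) :
    lowPts k x R F D T = lowVals k x R F MvPolynomial.X D T := by
  unfold lowPts lowVals val
  simp only [MvPolynomial.aeval_X]

/-- counting a set of vectors given by finitely many polynomial conditions -/
theorem count {n M : ℕ} {k : Type} [Field k] [Algebra k ℂ]
    (Q : Fin (M + 1) → Polynomial (MvPolynomial (Fin n) k)) (i0 i1 i2 : Fin n)
    (S : Finset (Fin 2 → ℂ)) :
    ∃ U : Finset (Fin (M + 1) → ℂ), U.card ≤ S.card ^ n * ∏ j, (Q j).natDegree ∧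
      ∀ (s : Fin n → Fin 2 → ℂ) (y : Fin (M + 1) → ℂ), (∀ i, s i ∈ S) →
        (∀ j, evc (Q j) (fun i => cr (s i0) (s i1) (s i2) (s i)) ≠ 0 ∧
          (evc (Q j) (fun i => cr (s i0) (s i1) (s i2) (s i))).eval (y j) = 0) → y ∈ U := by
  classical
  refine ⟨(Fintype.piFinset fun _ : Fin n => S).biUnion fun s => Fintype.piFinset fun j =>
    (evc (Q j) (fun i => cr (s i0) (s i1) (s i2) (s i))).roots.toFinset, ?_, ?_⟩
  · refine Finset.card_biUnion_le.trans ?_
    have h1 : ∀ s : Fin n → Fin 2 → ℂ, (Fintype.piFinset fun j =>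
        (evc (Q j) (fun i => cr (s i0) (s i1) (s i2) (s i))).roots.toFinset).card ≤
          ∏ j, (Q j).natDegree := by
      intro s
      rw [Fintype.card_piFinset]
      refine Finset.prod_le_prod' fun j _ => ?_
      refine (Multiset.toFinset_card_le _).trans ((card_roots' _).trans ?_)
      exact natDegree_map_le
    refine (Finset.sum_le_card_nsmul _ _ _ fun s _ => h1 s).trans ?_
    rw [smul_eq_mul, Fintype.card_piFinset, Finset.prod_const, Finset.card_univ, Fintype.card_fin]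
  · intro s y hs hy
    rw [Finset.mem_biUnion]
    refine ⟨s, by rw [Fintype.mem_piFinset]; exact hs, ?_⟩
    rw [Fintype.mem_piFinset]
    intro j
    rw [Multiset.mem_toFinset, mem_roots (hy j).1, IsRoot.def]
    exact (hy j).2

/-- every map is defined over the whole function field -/
theorem definedOver_top {k K : Type} [Field k] [Field K] [Algebra k K] {d : ℕ} {p q : K[X]}
    (hcop : IsCoprime p q) (hdeg : max p.natDegree q.natDegree = d) :
    DefinedOver d p q (⊤ : IntermediateField k K) := by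
  have hmob : ∀ y : Option (AlgebraicClosure K),
      Pool.Agent.W277.UH.ratP1 (C (1 : AlgebraicClosure K) * X + C 0) (C 0 * X + C 1) 1 y = y := by
    intro y
    obtain ⟨V, hV, rfl⟩ := Pool.Agent.Q68.GT.exists_ptp y
    rw [Pool.Agent.Q68.GT.mob_ptp _ _ _ _ hV]
    congr 1
    refine Prod.ext ?_ ?_
    · show 1 * V.1 + 0 * V.2 = V.1
      ring
    · show 0 * V.1 + 1 * V.2 = V.2
      ring
  have h0 : (1 : AlgebraicClosure K) * 1 - 0 * 0 ≠ 0 := by
    rw [mul_one, mul_zero, sub_zero]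
    exact one_ne_zero
  have hcop' : IsCoprime (p.map (algebraMap K (AlgebraicClosure K)))
      (q.map (algebraMap K (AlgebraicClosure K))) :=
    hcop.map (mapRingHom (algebraMap K (AlgebraicClosure K)))
  have hdeg' : max (p.map (algebraMap K (AlgebraicClosure K))).natDegree
      (q.map (algebraMap K (AlgebraicClosure K))).natDegree = d := by
    rw [natDegree_map, natDegree_map, hdeg]
  refine ⟨p.map (algebraMap K (AlgebraicClosure K)), q.map (algebraMap K (AlgebraicClosure K)),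
    1, 0, 0, 1, h0, hcop', hdeg', fun i => ?_, fun y => by rw [hmob, hmob]⟩
  have key : ∀ z : K, IsAlgebraic (⊤ : IntermediateField k K)
      (algebraMap K (AlgebraicClosure K) z) := by
    intro z
    have h1 : IsAlgebraic (⊤ : IntermediateField k K) z :=
      isAlgebraic_algebraMap (⟨z, IntermediateField.mem_top⟩ : (⊤ : IntermediateField k K))
    exact h1.algebraMap
  rw [coeff_map, coeff_map]
  exact ⟨key _, key _⟩

/-- **Sparsity.** There is a field `F₀` over which the map is defined up to conjugation such that the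
values of all functions which are algebraic over `F₀` at the points of bounded degree are sparse. -/
theorem main_gen (d : ℕ) (hd : 2 ≤ d) : ∃ B : ℕ → ℝ → ℕ,
    ∀ (k : Type) [Field k] [Algebra k ℂ] (K : Type) [Field K] [Algebra k K] (M : ℕ)
      (x : Fin (M + 1) → K), x ≠ 0 → coords k x = ⊤ → ∀ p q : K[X], IsCoprime p q →
      max p.natDegree q.natDegree = d → ∀ n₀ : ℕ, (n₀ : ℕ∞) ≤ (prePer d p q).encard →
      ∀ (κ : ℕ) (F : Fin 2 × Fin (d + 1) → MvPolynomial (Fin (M + 1)) k) (t : K),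
        (∀ s, (F s).IsHomogeneous κ) → t ≠ 0 → (∀ s, cfv d p q s = t * val x (F s)) →
        ∃ F₀ : IntermediateField k K, DefinedOver d p q F₀ ∧
        ∀ (r e : ℕ) (g : Fin (r + 1) → MvPolynomial (Fin (M + 1)) k),
        (∀ j, (g j).IsHomogeneous e) → val x (g 0) ≠ 0 →
        (∀ j, IsAlgebraic F₀ (val x (g j) / val x (g 0))) →
        ∃ R : MvPolynomial (Fin (M + 1)) k, IsForm R ∧ val x R ≠ 0 ∧
          ∀ (D : ℕ) (ε : ℝ), 0 < ε → B D ε ≤ n₀ → ∃ C : ℝ, ∀ T : ℝ, 1 ≤ T →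
          (lowVals k x R F g D T).Finite ∧ ((lowVals k x R F g D T).ncard : ℝ) ≤ C * T ^ ε := by
  classical
  choose NN CC hNN using fun (D : ℕ) (ε : ℝ) (hε : 0 < ε) => Few.result d D hd ε hε
  refine ⟨fun D ε => if h : 0 < ε then max (3 * d + 7) (NN D ε h + 1) else 0, ?_⟩
  intro k _ _ K _ _ M x hx hgen p q hcop hdeg n₀ hmany κ F t hF ht hFt
  by_cases hn₀ : n₀ < 3 * d + 7
  · refine ⟨⊤, definedOver_top hcop hdeg, ?_⟩
    intro r e g hg hg0 halg
    refine ⟨1, ⟨0, MvPolynomial.isHomogeneous_one _ _⟩, ?_, ?_⟩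
    · unfold val
      rw [map_one]
      exact one_ne_zero
    · intro D ε hε hB
      change (if h : 0 < ε then max (3 * d + 7) (NN D ε h + 1) else 0) ≤ n₀ at hB
      rw [dif_pos hε] at hB
      have := le_max_left (3 * d + 7) (NN D ε hε + 1)
      omega
  rw [not_lt] at hn₀
  obtain ⟨n, V, τ, c, i0, i1, i2, hBn, hV, hwd, hmap, h01, h02, h12, hdef⟩ :=
    kl (k := k) hd hn₀ hcop hdeg hmany
  refine ⟨_, hdef, ?_⟩
  intro r ee g hg hg0 halg
  have hn1 : 3 * d + 7 ≤ n := hn₀.trans hBn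
  have hd1 : 1 ≤ d := by omega
  obtain ⟨j0, hj0'⟩ := Function.ne_iff.1 hx
  have hj0 : x j0 ≠ 0 := hj0'
  obtain ⟨crv, hcrv⟩ : ∃ crv : Fin n → K, ∀ i, crv i = cr (V i0) (V i1) (V i2) (V i) :=
    ⟨_, fun _ => rfl⟩
  have hcrv' : crv = fun i => cr (V i0) (V i1) (V i2) (V i) := funext hcrv
  rw [← hcrv'] at halg
  obtain ⟨yy, hyy⟩ : ∃ yy : Fin (r + 1) → K, yy = fun j => val x (g j) / val x (g 0) := ⟨_, rfl⟩
  have hpoly : ∀ j : Fin (r + 1), ∃ Q : Polynomial (MvPolynomial (Fin n) k),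
      (∃ m, (evc Q crv).coeff m ≠ 0) ∧ (evc Q crv).eval (yy j) = 0 := fun j =>
    alg_poly crv _ (by rw [hyy]; exact halg j)
  choose Q hQ hQ0 using hpoly
  choose m hm using hQ
  obtain ⟨B₀, hB₀⟩ := ref d n hd
  obtain ⟨u, hu⟩ : ∃ u, u = cfv d p q := ⟨_, rfl⟩
  have hrsK : rs (mk d u) d ≠ 0 := by rw [hu]; exact rs_ne hd1 hcop hdeg
  have ht1 : t * x j0 ^ κ ≠ 0 := mul_ne_zero ht (pow_ne_zero _ hj0)
  -- the finite set of elements
  obtain ⟨C1, hC1⟩ : ∃ C1 : Set K, C1 = Set.range u ∪ {t * x j0 ^ κ, (t * x j0 ^ κ)⁻¹,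
      (rs (mk d u) d)⁻¹} ∪ Set.range (fun s : Fin n × Fin 2 => V s.1 s.2) ∪
      Set.range (fun s : Fin n × Fin n => (wd (V s.1) (V s.2))⁻¹) ∪ Set.range c ∪
      Set.range (fun i => (c i)⁻¹) ∪ Set.range (fun j => ((evc (Q j) crv).coeff (m j))⁻¹) ∪
      (Set.range yy ∪ {(val (fun i => x i / x j0) (g 0))⁻¹}) := ⟨_, rfl⟩
  have hC1fin : C1.Finite := by
    rw [hC1]
    refine (((((((Set.finite_range _).union (Set.toFinite _)).union (Set.finite_range _)).union
      (Set.finite_range _)).union (Set.finite_range _)).union (Set.finite_range _)).union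
      (Set.finite_range _)).union ((Set.finite_range _).union (Set.toFinite _))
  obtain ⟨R, T, hRf, hR, hC1T, hxT, hsp⟩ := spec hgen hj0 hC1fin
  have huT : ∀ s, u s ∈ T := fun s => hC1T (by
    rw [hC1]
    exact Or.inl (Or.inl (Or.inl (Or.inl (Or.inl (Or.inl (Or.inl ⟨s, rfl⟩)))))))
  have ht1T : t * x j0 ^ κ ∈ T := hC1T (by
    rw [hC1]
    exact Or.inl (Or.inl (Or.inl (Or.inl (Or.inl (Or.inl (Or.inr (by simp))))))))
  have ht1T' : (t * x j0 ^ κ)⁻¹ ∈ T := hC1T (by
    rw [hC1]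
    exact Or.inl (Or.inl (Or.inl (Or.inl (Or.inl (Or.inl (Or.inr (by simp))))))))
  have hrsT : (rs (mk d u) d)⁻¹ ∈ T := hC1T (by
    rw [hC1]
    exact Or.inl (Or.inl (Or.inl (Or.inl (Or.inl (Or.inl (Or.inr (by simp))))))))
  have hVT : ∀ i l, V i l ∈ T := fun i l => hC1T (by
    rw [hC1]
    exact Or.inl (Or.inl (Or.inl (Or.inl (Or.inl (Or.inr ⟨(i, l), rfl⟩))))))
  have hwT : ∀ i j, (wd (V i) (V j))⁻¹ ∈ T := fun i j => hC1T (by
    rw [hC1]
    exact Or.inl (Or.inl (Or.inl (Or.inl (Or.inr ⟨(i, j), rfl⟩)))))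
  have hcT : ∀ i, c i ∈ T := fun i => hC1T (by
    rw [hC1]
    exact Or.inl (Or.inl (Or.inl (Or.inr ⟨i, rfl⟩))))
  have hcT' : ∀ i, (c i)⁻¹ ∈ T := fun i => hC1T (by
    rw [hC1]
    exact Or.inl (Or.inl (Or.inr ⟨i, rfl⟩)))
  have hQT : ∀ j, ((evc (Q j) crv).coeff (m j))⁻¹ ∈ T := fun j => hC1T (by
    rw [hC1]
    exact Or.inl (Or.inr ⟨j, rfl⟩))
  have hyT : ∀ j, yy j ∈ T := fun j => hC1T (by
    rw [hC1]
    exact Or.inr (Or.inl ⟨j, rfl⟩))
  have hgT : (val (fun i => x i / x j0) (g 0))⁻¹ ∈ T := hC1T (by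
    rw [hC1]
    exact Or.inr (Or.inr (by simp)))
  have hwT' : ∀ i j, wd (V i) (V j) ∈ T := fun i j =>
    sub_mem (mul_mem (hVT _ _) (hVT _ _)) (mul_mem (hVT _ _) (hVT _ _))
  have hcrT : ∀ i, crv i ∈ T := by
    intro i
    rw [hcrv]
    unfold cr
    rw [div_eq_mul_inv, mul_inv]
    exact mul_mem (mul_mem (hwT' _ _) (hwT' _ _)) (mul_mem (hwT _ _) (hwT _ _))
  -- the map and the points over `T`
  let uT : Fin 2 × Fin (d + 1) → T := fun s => ⟨u s, huT s⟩
  let VT : Fin n → Fin 2 → T := fun i l => ⟨V i l, hVT i l⟩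
  let cT : Fin n → T := fun i => ⟨c i, hcT i⟩
  let cT' : Fin n → T := fun i => ⟨(c i)⁻¹, hcT' i⟩
  let wT : Fin n → Fin n → T := fun i j => ⟨(wd (V i) (V j))⁻¹, hwT i j⟩
  have hw1 : ∀ i j, i ≠ j → (VT i 0 * VT j 1 - VT i 1 * VT j 0) * wT i j = 1 := by
    intro i j hij
    apply Subtype.ext
    change (V i 0 * V j 1 - V i 1 * V j 0) * (wd (V i) (V j))⁻¹ = 1
    exact mul_inv_cancel₀ (hwd i j hij)
  have hc1 : ∀ i, cT i * cT' i = 1 := by
    intro i
    apply Subtype.ext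
    change c i * (c i)⁻¹ = 1
    exact mul_inv_cancel₀ (hmap i).1
  have hmap1 : ∀ i l, ∑ j : Fin (d + 1), uT (l, j) * VT i 0 ^ (j : ℕ) * VT i 1 ^ (d - j) =
      cT i * VT (τ i) l := by
    intro i l
    have h1 : MvPolynomial.eval (V i) (mk d u l) = c i * V (τ i) l := by
      have h2 := mk_hev d p q (V i)
      rw [← hu] at h2
      fin_cases l
      · exact h2.1.trans (hmap i).2.1
      · exact h2.2.trans (hmap i).2.2
    rw [mk_eval] at h1
    apply Subtype.ext
    rw [AddSubmonoidClass.coe_finsetSum]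
    exact h1
  -- specialization of the configuration
  have hcfg : ∀ {E : Type} [Field E] [Algebra k E] (χ : T →ₐ[k] E),
      Cfg n τ (mk d fun s => χ (uT s)) (fun i l => χ (VT i l)) ∧
      rs (mk d fun s => χ (uT s)) d ≠ 0 ∧
      ∀ i, cr (fun l => χ (VT i0 l)) (fun l => χ (VT i1 l)) (fun l => χ (VT i2 l))
        (fun l => χ (VT i l)) = χ ⟨crv i, hcrT i⟩ := by
    intro E _ _ χ
    refine ⟨cfg_hom χ.toRingHom (by omega) uT VT cT cT' wT hw1 hc1 hmap1,
      rs_hom χ uT hrsT hrsK, fun i => ?_⟩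
    have hwχ : ∀ i j, wd (fun l => χ (VT i l)) (fun l => χ (VT j l)) =
        χ ⟨wd (V i) (V j), hwT' i j⟩ := by
      intro i j
      have h1 : (⟨wd (V i) (V j), hwT' i j⟩ : T) = VT i 0 * VT j 1 - VT i 1 * VT j 0 := rfl
      rw [h1, map_sub, map_mul, map_mul]
      rfl
    unfold cr
    rw [hwχ, hwχ, hwχ, hwχ]
    have hinv : ∀ i j, χ ⟨(wd (V i) (V j))⁻¹, hwT i j⟩ = (χ ⟨wd (V i) (V j), hwT' i j⟩)⁻¹ := by
      intro i j
      by_cases h0 : wd (V i) (V j) = 0
      · have h1 : (⟨(wd (V i) (V j))⁻¹, hwT i j⟩ : T) = 0 := Subtype.ext (by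
          change (wd (V i) (V j))⁻¹ = 0
          rw [h0]
          exact inv_zero)
        have h2 : (⟨wd (V i) (V j), hwT' i j⟩ : T) = 0 := Subtype.ext h0
        rw [h1, h2, map_zero, inv_zero]
      · have h1 : (⟨wd (V i) (V j), hwT' i j⟩ : T) * ⟨(wd (V i) (V j))⁻¹, hwT i j⟩ = 1 :=
          Subtype.ext (mul_inv_cancel₀ h0)
        have h2 := congrArg χ h1
        rw [map_mul, map_one] at h2
        exact eq_inv_of_mul_eq_one_right h2
    have h3 : (⟨crv i, hcrT i⟩ : T) = ⟨wd (V i0) (V i2), hwT' _ _⟩ * ⟨wd (V i1) (V i), hwT' _ _⟩ *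
        (⟨(wd (V i1) (V i2))⁻¹, hwT _ _⟩ * ⟨(wd (V i0) (V i))⁻¹, hwT _ _⟩) := by
      apply Subtype.ext
      change crv i = wd (V i0) (V i2) * wd (V i1) (V i) *
        ((wd (V i1) (V i2))⁻¹ * (wd (V i0) (V i))⁻¹)
      rw [hcrv]
      unfold cr
      rw [div_eq_mul_inv, mul_inv]
    rw [h3, map_mul, map_mul, map_mul, hinv, hinv, div_eq_mul_inv, mul_inv]
  -- the coefficients
  have hcoef : ∀ {L : Type} [Field L] [Algebra k L] (a : Fin (M + 1) → L) (φ : T →ₐ[k] L),
      a j0 ≠ 0 → (∀ (i : Fin (M + 1)) (h : x i / x j0 ∈ T), φ ⟨_, h⟩ = a i / a j0) →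
      ∃ e : L, e ≠ 0 ∧ ∀ s, φ (uT s) = e * val a (F s) := by
    intro L _ _ a φ ha hφ
    refine ⟨φ ⟨_, ht1T⟩ * (a j0 ^ κ)⁻¹, ?_, fun s => ?_⟩
    · refine mul_ne_zero ?_ (inv_ne_zero (pow_ne_zero _ ha))
      intro h0
      have h1 : (⟨_, ht1T⟩ : T) * ⟨_, ht1T'⟩ = 1 := Subtype.ext (mul_inv_cancel₀ ht1)
      have h2 := congrArg φ h1
      rw [map_mul, map_one, h0, zero_mul] at h2
      exact zero_ne_one h2
    · have h1 : val a (F s) = a j0 ^ κ * val (fun i => a i / a j0) (F s) := by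
        rw [← val_smul (hF s)]
        congr 1
        funext i
        field_simp
      have h2 : val x (F s) = x j0 ^ κ * val (fun i => x i / x j0) (F s) := by
        rw [← val_smul (hF s)]
        congr 1
        funext i
        field_simp
      have h3 : uT s = ⟨_, ht1T⟩ * (MvPolynomial.aeval (fun i => (⟨x i / x j0, hxT i⟩ : T)) (F s) : T) := by
        apply Subtype.ext
        have h4 : ((MvPolynomial.aeval (fun i => (⟨x i / x j0, hxT i⟩ : T)) (F s) : T) : K) =
            val (fun i => x i / x j0) (F s) :=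
          MvPolynomial.comp_aeval_apply (fun i => (⟨x i / x j0, hxT i⟩ : T)) T.val (F s)
        change u s = t * x j0 ^ κ *
          ((MvPolynomial.aeval (fun i => (⟨x i / x j0, hxT i⟩ : T)) (F s) : T) : K)
        rw [h4, hu, hFt, h2]
        ring
      rw [h3, map_mul, MvPolynomial.comp_aeval_apply]
      have h5 : (fun i => φ (⟨x i / x j0, hxT i⟩ : T)) = fun i => a i / a j0 := by
        funext i
        exact hφ i (hxT i)
      rw [h5, h1]
      unfold val
      field_simp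
  -- the values of the rational map
  have hvals : ∀ {L : Type} [Field L] [Algebra k L] (a : Fin (M + 1) → L) (φ : T →ₐ[k] L),
      a j0 ≠ 0 → (∀ (i : Fin (M + 1)) (h : x i / x j0 ∈ T), φ ⟨_, h⟩ = a i / a j0) →
      val a (g 0) ≠ 0 ∧ ∀ j, φ ⟨yy j, hyT j⟩ = val a (g j) / val a (g 0) := by
    intro L _ _ a φ ha hφ
    have hj : ∀ j, val a (g j) = a j0 ^ ee * val (fun i => a i / a j0) (g j) := by
      intro j
      rw [← val_smul (hg j)]
      congr 1
      funext i
      field_simp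
    have hjx : ∀ j, val x (g j) = x j0 ^ ee * val (fun i => x i / x j0) (g j) := by
      intro j
      rw [← val_smul (hg j)]
      congr 1
      funext i
      field_simp
    have hT : ∀ j, ((MvPolynomial.aeval (fun i => (⟨x i / x j0, hxT i⟩ : T)) (g j) : T) : K) =
        val (fun i => x i / x j0) (g j) := fun j =>
      MvPolynomial.comp_aeval_apply (fun i => (⟨x i / x j0, hxT i⟩ : T)) T.val (g j)
    have hφj : ∀ j, φ (MvPolynomial.aeval (fun i => (⟨x i / x j0, hxT i⟩ : T)) (g j)) =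
        val (fun i => a i / a j0) (g j) := by
      intro j
      rw [MvPolynomial.comp_aeval_apply]
      have h5 : (fun i => φ (⟨x i / x j0, hxT i⟩ : T)) = fun i => a i / a j0 := by
        funext i
        exact hφ i (hxT i)
      rw [h5]
      rfl
    have hx0 : val (fun i => x i / x j0) (g 0) ≠ 0 := by
      intro h0
      apply hg0
      rw [hjx, h0, mul_zero]
    have ha0 : val (fun i => a i / a j0) (g 0) ≠ 0 := by
      intro h0
      have h1 : (MvPolynomial.aeval (fun i => (⟨x i / x j0, hxT i⟩ : T)) (g 0) : T) * ⟨_, hgT⟩ = 1 := by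
        apply Subtype.ext
        change ((MvPolynomial.aeval (fun i => (⟨x i / x j0, hxT i⟩ : T)) (g 0) : T) : K) *
          (val (fun i => x i / x j0) (g 0))⁻¹ = 1
        rw [hT]
        exact mul_inv_cancel₀ hx0
      have h2 := congrArg φ h1
      rw [map_mul, map_one, hφj, h0, zero_mul] at h2
      exact zero_ne_one h2
    have hg0a : val a (g 0) ≠ 0 := by
      rw [hj]
      exact mul_ne_zero (pow_ne_zero _ ha) ha0
    refine ⟨hg0a, fun j => ?_⟩
    have h1 : (⟨yy j, hyT j⟩ : T) * (MvPolynomial.aeval (fun i => (⟨x i / x j0, hxT i⟩ : T)) (g 0) : T) =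
        MvPolynomial.aeval (fun i => (⟨x i / x j0, hxT i⟩ : T)) (g j) := by
      apply Subtype.ext
      change yy j * ((MvPolynomial.aeval (fun i => (⟨x i / x j0, hxT i⟩ : T)) (g 0) : T) : K) =
        ((MvPolynomial.aeval (fun i => (⟨x i / x j0, hxT i⟩ : T)) (g j) : T) : K)
      rw [hT, hT, hyy]
      change val x (g j) / val x (g 0) * _ = _
      rw [hjx j, hjx 0, mul_div_mul_left _ _ (pow_ne_zero _ hj0), div_mul_cancel₀ _ hx0]
    have h2 := congrArg φ h1
    rw [map_mul, hφj, hφj] at h2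
    rw [hj j, hj 0, mul_div_mul_left _ _ (pow_ne_zero _ ha), ← h2, mul_div_assoc, div_self ha0,
      mul_one]
  refine ⟨R, hRf, hR, fun D ε hε hBD => ?_⟩
  change (if h : 0 < ε then max (3 * d + 7) (NN D ε h + 1) else 0) ≤ n₀ at hBD
  rw [dif_pos hε] at hBD
  obtain ⟨N, hN0⟩ : ∃ N, N = NN D ε hε := ⟨_, rfl⟩
  obtain ⟨C0, hC0⟩ : ∃ C0, C0 = CC D ε hε := ⟨_, rfl⟩
  have hN := hNN D ε hε
  rw [← hN0, ← hC0] at hN
  rw [← hN0] at hBD
  have hn2 : N + 1 ≤ n := ((le_max_right _ _).trans hBD).trans hBn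
  refine ⟨((B₀ : ℝ) ^ n * (∏ j, (Q j).natDegree : ℕ)) * C0, fun Tt hTt => ?_⟩
  obtain ⟨𝒢, h𝒢, hexc⟩ := hN Tt hTt
  -- finite sets of vectors for the members of `𝒢`
  have hU : ∀ G : Fin 2 → MvPolynomial (Fin 2) ℂ, ∃ U : Finset (Fin (r + 1) → ℂ),
      U.card ≤ B₀ ^ n * ∏ j, (Q j).natDegree ∧ ∀ χ : T →ₐ[k] ℂ,
        CJC (mk d fun s => χ (uT s)) G → (fun j => χ ⟨yy j, hyT j⟩) ∈ U := by
    intro G
    by_cases hG : ∃ χ₀ : T →ₐ[k] ℂ, CJC (mk d fun s => χ₀ (uT s)) G
    · obtain ⟨χ₀, hχ₀⟩ := hG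
      obtain ⟨S, hS, hS'⟩ := hB₀ (mk d fun s => χ₀ (uT s)) (fun i => mk_hom d _ i) (hcfg χ₀).2.1
      obtain ⟨U, hU, hU'⟩ := count Q i0 i1 i2 S
      refine ⟨U, hU.trans (Nat.mul_le_mul_right _ (Nat.pow_le_pow_left hS n)), fun χ hχ => ?_⟩
      obtain ⟨s, hsS, hs⟩ := hS' τ _ _ (hcfg χ).1 (hχ.trans' hχ₀.symm')
      refine hU' s _ hsS fun j => ?_
      have h1 : (fun i => cr (s i0) (s i1) (s i2) (s i)) = fun i => χ ⟨crv i, hcrT i⟩ := by
        funext i
        rw [← (hcfg χ).2.2 i, ← hs]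
      rw [h1]
      exact alg_spec' χ hcrT (hyT j) (hm j) (hQT j) (hQ0 j)
    · push Not at hG
      exact ⟨∅, by simp, fun χ hχ => absurd hχ (hG χ)⟩
  choose U hUc hUm using hU
  -- the low points
  have hsub : lowVals k x R F g D Tt ⊆
      ((𝒢.biUnion U).image fun y => Submodule.span ℂ {y} : Finset (Submodule ℂ (Fin (r + 1) → ℂ))) := by
    rintro P ⟨L, _, _, _, σ, a, hL, ha, haR, hht, rfl⟩
    obtain ⟨ha0, φ, hφ⟩ := hsp L a ha haR
    obtain ⟨e, he, hφe⟩ := hcoef a φ ha0 hφ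
    obtain ⟨hc3, hrs3, -⟩ := hcfg φ
    have hmk : ∀ i, mk d (fun s => φ (uT s)) i =
        MvPolynomial.C e * mk d (fun s => val a (F s)) i := by
      intro i
      rw [← mk_smul]
      congr 1
      funext s
      exact hφe s
    have hmapL : IsMap d (mk d fun s => val a (F s)) :=
      isMap_smul hmk (fun i => mk_hom d _ i) (isMap_of_rs hd1 (fun i => mk_hom d _ i) hrs3)
    have hcL := cfg_smul he hmk hc3
    have hrsL : rs (mk d fun s => val a (F s)) d ≠ 0 :=
      Pool.Agent.TH450.PC.rs_ne_of_noZero hd1 hmapL.1 hmapL.2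
    have hmanyL := hcL.many hd1 (fun i => mk_hom d _ i) hrsL
    rcases hexc L hL (mk d fun s => val a (F s)) hmapL (by rw [coeffs_mk]; exact hht) with h1 | h1
    · obtain ⟨G, hG, hfG⟩ := h1 (σ : L →+* ℂ)
      have h2 : CJC (fun i => (mk d (fun s => val a (F s)) i).map (σ : L →+* ℂ)) G := hfG
      have hσe : σ e ≠ 0 := (_root_.map_ne_zero _).2 he
      have h3 : CJC (mk d fun s => (σ.comp φ) (uT s)) G := by
        refine cjc_smul hσe (fun i => ?_) h2
        show mk d (fun s => σ (φ (uT s))) i = _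
        have h4 : (fun s => σ (φ (uT s))) = fun s => σ e * σ (val a (F s)) := by
          funext s
          rw [hφe, map_mul]
        rw [h4, mk_smul, mk_map]
        rfl
      rw [Finset.coe_image]
      refine ⟨fun j => (σ.comp φ) ⟨yy j, hyT j⟩, ?_, ?_⟩
      · rw [Finset.mem_coe, Finset.mem_biUnion]
        exact ⟨G, hG, hUm G _ h3⟩
      · obtain ⟨hga, hgv⟩ := hvals a φ ha0 hφ
        have h5 : (fun j => (σ.comp φ) ⟨yy j, hyT j⟩) =
            (σ (val a (g 0)))⁻¹ • fun i => σ (val a (g i)) := by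
          funext j
          show σ (φ ⟨yy j, hyT j⟩) = (σ (val a (g 0)))⁻¹ * σ (val a (g j))
          rw [hgv, map_div₀, div_eq_mul_inv, mul_comm]
        have hσa : σ (val a (g 0)) ≠ 0 := (_root_.map_ne_zero _).2 hga
        show Submodule.span ℂ {fun j => (σ.comp φ) ⟨yy j, hyT j⟩} = _
        rw [h5]
        exact Submodule.span_singleton_smul_eq (IsUnit.mk0 _ (inv_ne_zero hσa)) _
    · exfalso
      have h2 := hmanyL.trans h1.1
      have h3 : n ≤ N := by exact_mod_cast h2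
      omega
  refine ⟨(Finset.finite_toSet _).subset hsub, ?_⟩
  have h1 : (lowVals k x R F g D Tt).ncard ≤ 𝒢.card * (B₀ ^ n * ∏ j, (Q j).natDegree) := by
    refine (Set.ncard_le_ncard hsub (Finset.finite_toSet _)).trans ?_
    rw [Set.ncard_coe_finset]
    refine Finset.card_image_le.trans (Finset.card_biUnion_le.trans ?_)
    refine (Finset.sum_le_card_nsmul _ _ _ fun G _ => hUc G).trans ?_
    rw [smul_eq_mul]
  calc ((lowVals k x R F g D Tt).ncard : ℝ) ≤ (𝒢.card * (B₀ ^ n * ∏ j, (Q j).natDegree) : ℕ) := by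
        exact_mod_cast h1
    _ = (𝒢.card : ℝ) * ((B₀ : ℝ) ^ n * (∏ j, (Q j).natDegree : ℕ)) := by push_cast; ring
    _ ≤ (C0 * Tt ^ ε) * ((B₀ : ℝ) ^ n * (∏ j, (Q j).natDegree : ℕ)) := by gcongr
    _ = _ := by ring

/-- the case of a generically finite moduli map -/
theorem main (d : ℕ) (hd : 2 ≤ d) : ∃ B : ℕ → ℝ → ℕ,
    ∀ (k : Type) [Field k] [Algebra k ℂ] (K : Type) [Field K] [Algebra k K] (M : ℕ)
      (x : Fin (M + 1) → K), x ≠ 0 → coords k x = ⊤ → ∀ (n : ℕ) (p q : K[X]), ManyPrep k d n p q →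
      ∀ (κ : ℕ) (F : Fin 2 × Fin (d + 1) → MvPolynomial (Fin (M + 1)) k) (t : K),
        (∀ s, (F s).IsHomogeneous κ) → t ≠ 0 → (∀ s, cfv d p q s = t * val x (F s)) →
        ∃ R : MvPolynomial (Fin (M + 1)) k, IsForm R ∧ val x R ≠ 0 ∧
          ∀ (D : ℕ) (ε : ℝ), 0 < ε → B D ε ≤ n → ∃ C : ℝ, ∀ T : ℝ, 1 ≤ T →
          (lowPts k x R F D T).Finite ∧ ((lowPts k x R F D T).ncard : ℝ) ≤ C * T ^ ε := by
  classical
  obtain ⟨B, hB⟩ := main_gen d hd
  refine ⟨B, ?_⟩
  intro k _ _ K _ _ M x hx hgen n p q hmp κ F t hF ht hFt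
  obtain ⟨F₀, ⟨p', q', a, b, c, e, h1, h2, h3, h4, h5⟩, hF₀⟩ := hB k K M x hx hgen p q hmp.coprime
    hmp.deg n hmp.many κ F t hF ht hFt
  have halg : Algebra.IsAlgebraic F₀ K := hmp.maxVar F₀ p' q' a b c e h1 h2 h3 h4 h5
  obtain ⟨j0, hj0'⟩ := Function.ne_iff.1 hx
  have hj0 : x j0 ≠ 0 := hj0'
  -- a permutation of the coordinates which moves `j0` to `0`
  obtain ⟨π, hπ⟩ : ∃ π : Equiv.Perm (Fin (M + 1)), π 0 = j0 := ⟨Equiv.swap 0 j0, Equiv.swap_apply_left _ _⟩
  obtain ⟨R, hR, hRx, hRC⟩ := hF₀ M 1 (fun i => MvPolynomial.X (π i))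
    (fun j => MvPolynomial.isHomogeneous_X _ _) (by
      unfold val
      rw [MvPolynomial.aeval_X, hπ]
      exact hj0) (fun j => halg.isAlgebraic _)
  refine ⟨R, hR, hRx, fun D ε hε hBD => ?_⟩
  obtain ⟨C, hC⟩ := hRC D ε hε hBD
  refine ⟨C, fun T hT => ?_⟩
  obtain ⟨h6, h7⟩ := hC T hT
  -- the permutation of the coordinates of the lines
  let f : Submodule ℂ (Fin (M + 1) → ℂ) → Submodule ℂ (Fin (M + 1) → ℂ) := fun P =>
    P.map (LinearMap.funLeft ℂ ℂ π.symm)
  have hsub : lowPts k x R F D T ⊆ f '' lowVals k x R F (fun i => MvPolynomial.X (π i)) D T := by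
    rintro P ⟨L, i1, i2, i3, σ, a, hL, ha, haR, hht, rfl⟩
    refine ⟨_, ⟨L, i1, i2, i3, σ, a, hL, ha, haR, hht, rfl⟩, ?_⟩
    simp only [f]
    rw [Submodule.map_span, Set.image_singleton]
    congr 2
    funext i
    rw [LinearMap.funLeft_apply]
    unfold val
    rw [MvPolynomial.aeval_X, Equiv.apply_symm_apply]
  refine ⟨(h6.image f).subset hsub, le_trans ?_ h7⟩
  exact_mod_cast (Set.ncard_le_ncard hsub (h6.image f)).trans (Set.ncard_image_le h6)

end Pool.Agent.Q103.RP
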