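import Pool.Agent.Q103.RP.Hgt
import Pool.Agent.Q103.RP.Exi
import Pool.Agent.Q103.VR.Stm

/-!
# The points of bounded degree of a variety which carries a map with many preperiodic points
-/

set_option autoImplicit false

namespace Pool.Agent.Q103.RP

open Polynomial Height
open Pool.Agent.W602.GT (IsForm val coords GeneralType)
open Pool.Agent.Q103.EC (ManyPrep prePer)
open Pool.Agent.Q103.VR (DefinedOver ModuliFibration IsVariation)

/-- few preperiodic points suffice for more -/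
theorem manyPrep_mono {k K : Type} [Field k] [Field K] [Algebra k K] {d B B' : ℕ} (h : B ≤ B')
    {p q : K[X]} (hp : ManyPrep k d B' p q) : ManyPrep k d B p q :=
  ⟨hp.coprime, hp.deg, hp.maxVar, le_trans (by exact_mod_cast h) hp.many⟩

/-- comparison of the two heights -/
theorem lowPts_sub {k : Type} [Field k] [NumberField k] [Algebra k ℂ] {K : Type} [Field K]
    [Algebra k K] {M κ : ℕ} (x : Fin (M + 1) → K) (R : MvPolynomial (Fin (M + 1)) k) {ι : Type}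
    [Finite ι] (F : ι → MvPolynomial (Fin (M + 1)) k) (hF : ∀ s, (F s).IsHomogeneous κ) (D : ℕ) :
    ∃ c : ℝ, 1 ≤ c ∧ ∀ T : ℝ, 1 ≤ T →
      lowPts k x R MvPolynomial.X D T ⊆ lowPts k x R F D (c * T ^ κ) := by
  obtain ⟨c, hc, h⟩ := height_le F hF
  refine ⟨c, hc, fun T hT => ?_⟩
  rintro P ⟨L, i1, i2, i3, σ, a, hL, ha, haR, hht, rfl⟩
  refine ⟨L, i1, i2, i3, σ, a, hL, ha, haR, (h L a ha.1).trans ?_, rfl⟩
  have h1 : (fun s => val a (MvPolynomial.X s : MvPolynomial (Fin (M + 1)) k)) = a := by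
    funext s
    unfold val
    rw [MvPolynomial.aeval_X]
  rw [h1] at hht
  have h2 : 0 ≤ mulHeight a := zero_le_one.trans (one_le_mulHeight a)
  calc c ^ Module.finrank ℚ L * mulHeight a ^ κ
      ≤ c ^ Module.finrank ℚ L * (T ^ Module.finrank ℚ L) ^ κ := by gcongr
    _ = (c * T ^ κ) ^ Module.finrank ℚ L := by rw [mul_pow, ← pow_mul, ← pow_mul, mul_comm κ]

/-- the constants -/
theorem const_aux {A A' : ℕ} {C c T ε : ℝ} {κ : ℕ} (hC : 0 ≤ C) (hc : 1 ≤ c) (hε : 0 < ε)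
    (hT : 1 ≤ T) (h : (A : ℝ) ≤ C * T ^ ε) (h' : (A' : ℝ) ≤ C * (c * T ^ κ) ^ ε) :
    (A : ℝ) ≤ C * c ^ ε * T ^ ε ∧ (A' : ℝ) ≤ C * c ^ ε * T ^ (κ * ε) := by
  have hcε : 1 ≤ c ^ ε := Real.one_le_rpow hc hε.le
  have hT0 : 0 ≤ T := zero_le_one.trans hT
  constructor
  · have h1 : 0 ≤ T ^ ε := Real.rpow_nonneg hT0 _
    have h2 : C ≤ C * c ^ ε := le_mul_of_one_le_right hC hcε
    exact h.trans (by gcongr)
  · refine h'.trans (le_of_eq ?_)
    rw [Real.mul_rpow (by linarith) (by positivity), ← Real.rpow_natCast T κ,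
      ← Real.rpow_mul hT0]
    ring

/-- **Varieties which carry a map with many preperiodic points are of general type, and their points of
bounded degree are sparse.** -/
theorem sparse (d : ℕ) (hd : 2 ≤ d) : ∃ (B₀ : ℕ) (B : ℕ → ℝ → ℕ),
    ∀ (k : Type) [Field k] [NumberField k] [Algebra k ℂ] (K : Type) [Field K] [Algebra k K] (M : ℕ)
      (x : Fin (M + 1) → K), x ≠ 0 → coords k x = ⊤ →
      ∀ (n : ℕ) (p q : K[X]), B₀ ≤ n → ManyPrep k d n p q →
      (∀ w : ℕ, 1 ≤ w → Algebra.trdeg k K = w → GeneralType k K w) ∧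
      ∀ (κ : ℕ) (F : Fin 2 × Fin (d + 1) → MvPolynomial (Fin (M + 1)) k) (t : K),
        (∀ s, (F s).IsHomogeneous κ) → t ≠ 0 → (∀ s, cfv d p q s = t * val x (F s)) →
        ∃ R : MvPolynomial (Fin (M + 1)) k, IsForm R ∧ val x R ≠ 0 ∧
          ∀ (D : ℕ) (ε : ℝ), 0 < ε → B D ε ≤ n → ∃ C : ℝ, ∀ T : ℝ, 1 ≤ T →
          ((lowPts k x R F D T).Finite ∧ ((lowPts k x R F D T).ncard : ℝ) ≤ C * T ^ ε) ∧
          (lowPts k x R MvPolynomial.X D T).Finite ∧
            ((lowPts k x R MvPolynomial.X D T).ncard : ℝ) ≤ C * T ^ (κ * ε) := by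
  obtain ⟨B1, hB1⟩ := main d hd
  obtain ⟨B2, hB2⟩ := Pool.Agent.Q103.VR.general d hd
  refine ⟨B2, B1, ?_⟩
  intro k _ _ _ K _ _ M x hx hgen n p q hn hmp
  refine ⟨fun w hw htr => hB2 k K p q (manyPrep_mono hn hmp) w hw htr, ?_⟩
  intro κ F t hF ht hFt
  obtain ⟨R, hR, hRx, hRC⟩ := hB1 k K M x hx hgen n p q hmp κ F t hF ht hFt
  refine ⟨R, hR, hRx, fun D ε hε hBD => ?_⟩
  obtain ⟨C, hC⟩ := hRC D ε hε hBD
  obtain ⟨c, hc, hsub⟩ := lowPts_sub x R F hF D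
  have hC0 : 0 ≤ C := by
    have h1 := (hC 1 le_rfl).2
    rw [Real.one_rpow, mul_one] at h1
    exact le_trans (by positivity) h1
  refine ⟨C * c ^ ε, fun T hT => ?_⟩
  have h1 : 1 ≤ c * T ^ κ := one_le_mul_of_one_le_of_one_le hc (one_le_pow₀ hT)
  obtain ⟨h2, h3⟩ := hC _ h1
  have h4 : ((lowPts k x R MvPolynomial.X D T).ncard : ℝ) ≤
      (lowPts k x R F D (c * T ^ κ)).ncard := by
    exact_mod_cast Set.ncard_le_ncard (hsub T hT) h2
  obtain ⟨h5, h6⟩ := const_aux hC0 hc hε hT (hC T hT).2 (h4.trans h3)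
  exact ⟨⟨(hC T hT).1, h5⟩, h2.subset (hsub T hT), h6⟩

/-- comparison of the two heights, for values of rational maps -/
theorem lowVals_sub {k : Type} [Field k] [NumberField k] [Algebra k ℂ] {K : Type} [Field K]
    [Algebra k K] {M κ : ℕ} (x : Fin (M + 1) → K) {ι : Type}
    [Finite ι] (F : ι → MvPolynomial (Fin (M + 1)) k) (hF : ∀ s, (F s).IsHomogeneous κ) (D : ℕ) :
    ∃ c : ℝ, 1 ≤ c ∧ ∀ (R : MvPolynomial (Fin (M + 1)) k) (r : ℕ)
      (g : Fin (r + 1) → MvPolynomial (Fin (M + 1)) k) (T : ℝ), 1 ≤ T →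
      lowVals k x R MvPolynomial.X g D T ⊆ lowVals k x R F g D (c * T ^ κ) := by
  obtain ⟨c, hc, h⟩ := height_le F hF
  refine ⟨c, hc, fun R r g T hT => ?_⟩
  rintro P ⟨L, i1, i2, i3, σ, a, hL, ha, haR, hht, rfl⟩
  refine ⟨L, i1, i2, i3, σ, a, hL, ha, haR, (h L a ha.1).trans ?_, rfl⟩
  have h1 : (fun s => val a (MvPolynomial.X s : MvPolynomial (Fin (M + 1)) k)) = a := by
    funext s
    unfold val
    rw [MvPolynomial.aeval_X]
  rw [h1] at hht
  have h2 : 0 ≤ mulHeight a := zero_le_one.trans (one_le_mulHeight a)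
  calc c ^ Module.finrank ℚ L * mulHeight a ^ κ
      ≤ c ^ Module.finrank ℚ L * (T ^ Module.finrank ℚ L) ^ κ := by gcongr
    _ = (c * T ^ κ) ^ Module.finrank ℚ L := by rw [mul_pow, ← pow_mul, ← pow_mul, mul_comm κ]

/-- **Every variety, every map with many preperiodic points**: the base of the moduli fibration is a point
or of general type, and the images in it of the points of bounded degree are sparse. -/
theorem sparse_fib (d : ℕ) (hd : 2 ≤ d) : ∃ (B₀ : ℕ) (B : ℕ → ℝ → ℕ),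
    ∀ (k : Type) [Field k] [NumberField k] [Algebra k ℂ] (K : Type) [Field K] [Algebra k K] (M : ℕ)
      (x : Fin (M + 1) → K), x ≠ 0 → coords k x = ⊤ → ∀ w : ℕ, Algebra.trdeg k K = w →
      ∀ (n : ℕ) (p q : K[X]), B₀ ≤ n → IsCoprime p q → max p.natDegree q.natDegree = d →
      (n : ℕ∞) ≤ (prePer d p q).encard →
      ∃ (E : IntermediateField k K) (v : ℕ), ModuliFibration d p q E ∧ v ≤ w ∧
        Algebra.trdeg k E = v ∧ IsVariation k d p q v ∧ (1 ≤ v → GeneralType k E v) ∧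
        ∀ (κ : ℕ) (F : Fin 2 × Fin (d + 1) → MvPolynomial (Fin (M + 1)) k) (t : K),
        (∀ s, (F s).IsHomogeneous κ) → t ≠ 0 → (∀ s, cfv d p q s = t * val x (F s)) →
        ∀ (r e : ℕ) (g : Fin (r + 1) → MvPolynomial (Fin (M + 1)) k),
        (∀ j, (g j).IsHomogeneous e) → val x (g 0) ≠ 0 →
        (∀ j, val x (g j) / val x (g 0) ∈ E) →
        ∃ R : MvPolynomial (Fin (M + 1)) k, IsForm R ∧ val x R ≠ 0 ∧
          ∀ (D : ℕ) (ε : ℝ), 0 < ε → B D ε ≤ n → ∃ C : ℝ, ∀ T : ℝ, 1 ≤ T →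
          ((lowVals k x R F g D T).Finite ∧ ((lowVals k x R F g D T).ncard : ℝ) ≤ C * T ^ ε) ∧
          (lowVals k x R MvPolynomial.X g D T).Finite ∧
            ((lowVals k x R MvPolynomial.X g D T).ncard : ℝ) ≤ C * T ^ (κ * ε) := by
  obtain ⟨B1, hB1⟩ := main_gen d hd
  obtain ⟨B2, hB2⟩ := Pool.Agent.Q103.VR.fibration d hd
  refine ⟨B2, B1, ?_⟩
  intro k _ _ _ K _ _ M x hx hgen w hw n p q hn hcop hdeg hmany
  have hm2 : (B2 : ℕ∞) ≤ (prePer d p q).encard := le_trans (by exact_mod_cast hn) hmany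
  obtain ⟨E, v, hE, hv, htr, hvar, hgt, -⟩ := hB2 k K p q hcop hdeg hm2 w hw
  refine ⟨E, v, hE, hv, htr, hvar, hgt, ?_⟩
  intro κ F t hF ht hFt r e g hg hg0 hgE
  obtain ⟨F₀, hF₀, hmain⟩ := hB1 k K M x hx hgen p q hcop hdeg n hmany κ F t hF ht hFt
  obtain ⟨R, hR, hRx, hRC⟩ := hmain r e g hg hg0 fun j => hE.least F₀ hF₀ _ (hgE j)
  refine ⟨R, hR, hRx, fun D ε hε hBD => ?_⟩
  obtain ⟨C, hC⟩ := hRC D ε hε hBD
  obtain ⟨c, hc, hsub⟩ := lowVals_sub x F hF D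
  have hC0 : 0 ≤ C := by
    have h1 := (hC 1 le_rfl).2
    rw [Real.one_rpow, mul_one] at h1
    exact le_trans (by positivity) h1
  refine ⟨C * c ^ ε, fun T hT => ?_⟩
  have h1 : 1 ≤ c * T ^ κ := one_le_mul_of_one_le_of_one_le hc (one_le_pow₀ hT)
  obtain ⟨h2, h3⟩ := hC _ h1
  have h4 : ((lowVals k x R MvPolynomial.X g D T).ncard : ℝ) ≤
      (lowVals k x R F g D (c * T ^ κ)).ncard := by
    exact_mod_cast Set.ncard_le_ncard (hsub R r g T hT) h2
  obtain ⟨h5, h6⟩ := const_aux hC0 hc hε hT (hC T hT).2 (h4.trans h3)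
  exact ⟨⟨(hC T hT).1, h5⟩, h2.subset (hsub R r g T hT), h6⟩

end Pool.Agent.Q103.RP
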